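import Pool.Agent.Lib.MP_8954a7_pr.Defs

/-! Backward induction: the value function of the game. -/

namespace Pool.Agent.Lib.SRG

open SimpleGraph Finset

variable {V : Type*} (G : SimpleGraph V) {n : ℕ}

open Classical in
/-- Value of the game with `r` rounds left and current graph `H`. -/
noncomputable def val : ℕ → SimpleGraph (Fin n) → ℝ
  | 0, H => if G ⊑ H then 1 else 0
  | r + 1, H => (∑ u, univ.sup' ⟨u, mem_univ u⟩ fun v => val r (H ⊔ edge u v)) / n

theorem graphOf_append (h : Hist n) (u v : Fin n) :
    graphOf (h ++ [(u, v)]) = graphOf h ⊔ edge u v := by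
  ext a b
  simp only [graphOf, fromRel_adj, List.mem_append, List.mem_singleton, Prod.mk.injEq, sup_adj,
    edge_adj]
  tauto

theorem graphOf_nil : graphOf ([] : Hist n) = ⊥ := by
  ext a b
  simp [graphOf]

theorem succProb_le_val (S : Strategy n) :
    ∀ (r : ℕ) (h : Hist n), succProb G S r h ≤ val G r (graphOf h)
  | 0, h => by simp [succProb, val]
  | r + 1, h => by
    simp only [succProb, val]
    refine div_le_div_of_nonneg_right (sum_le_sum fun u _ => ?_) (Nat.cast_nonneg _)
    calc ∑ v, S.w h u v * succProb G S r (h ++ [(u, v)])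
        ≤ ∑ v, S.w h u v * univ.sup' ⟨u, mem_univ u⟩ fun v => val G r (graphOf h ⊔ edge u v) := by
          refine sum_le_sum fun v _ => mul_le_mul_of_nonneg_left ?_ (S.nonneg _ _ _)
          refine (succProb_le_val S r _).trans ?_
          rw [graphOf_append]
          exact le_sup' (fun v => val G r (graphOf h ⊔ edge u v)) (mem_univ v)
      _ = _ := by rw [← sum_mul, S.sum_one, one_mul]

theorem exists_opt (N : ℕ) : ∃ S : Strategy n, ∀ (r : ℕ) (h : Hist n), h.length + r = N →
    succProb G S r h = val G r (graphOf h) := by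
  classical
  have key : ∀ (h : Hist n) (u : Fin n), ∃ v : Fin n,
      (univ.sup' ⟨u, mem_univ u⟩ fun v => val G (N - h.length - 1) (graphOf h ⊔ edge u v))
        = val G (N - h.length - 1) (graphOf h ⊔ edge u v) := by
    intro h u
    obtain ⟨v, -, hv⟩ := exists_mem_eq_sup' ⟨u, mem_univ u⟩
      (fun v => val G (N - h.length - 1) (graphOf h ⊔ edge u v))
    exact ⟨v, hv⟩
  choose b hb using key
  refine ⟨⟨fun h u v => if v = b h u then 1 else 0, fun h u v => by split_ifs <;> norm_num,
    fun h u => by simp⟩, ?_⟩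
  intro r
  induction r with
  | zero => intro h _; simp [succProb, val]
  | succ r ih =>
    intro h hh
    simp only [succProb, val]
    congr 1
    refine sum_congr rfl fun u _ => ?_
    have hr : N - h.length - 1 = r := by omega
    have := hb h u
    rw [hr] at this
    rw [this]
    simp only [ite_mul, one_mul, zero_mul, sum_ite_eq', mem_univ, if_true]
    rw [ih _ (by simp; omega), graphOf_append]

theorem optProb_eq (n t : ℕ) : optProb G n t = val G t (⊥ : SimpleGraph (Fin n)) := by
  obtain ⟨S, hS⟩ := exists_opt G (n := n) t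
  have h1 := hS t [] (by simp)
  rw [graphOf_nil] at h1
  have hb : ∀ S : Strategy n, succProb G S t [] ≤ val G t (⊥ : SimpleGraph (Fin n)) := fun S => by
    have := succProb_le_val G S t []
    rwa [graphOf_nil] at this
  have : Nonempty (Strategy n) := ⟨S⟩
  refine le_antisymm (ciSup_le hb) ?_
  rw [← h1]
  exact le_ciSup (f := fun S : Strategy n => succProb G S t []) ⟨_, by
    rintro _ ⟨S, rfl⟩; exact hb S⟩ S

theorem val_succ_le {r : ℕ} {H : SimpleGraph (Fin n)} (F : Fin n → ℝ)
    (hF : ∀ u v, val G r (H ⊔ edge u v) ≤ F u) : val G (r + 1) H ≤ (∑ u, F u) / n := by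
  simp only [val]
  exact div_le_div_of_nonneg_right (sum_le_sum fun u _ => sup'_le _ _ fun v _ => hF u v)
    (Nat.cast_nonneg _)

theorem le_val_succ {r : ℕ} {H : SimpleGraph (Fin n)} (F : Fin n → ℝ)
    (hF : ∀ u, ∃ v, F u ≤ val G r (H ⊔ edge u v)) : (∑ u, F u) / n ≤ val G (r + 1) H := by
  simp only [val]
  refine div_le_div_of_nonneg_right (sum_le_sum fun u _ => ?_) (Nat.cast_nonneg _)
  obtain ⟨v, hv⟩ := hF u
  exact hv.trans (le_sup' (fun v => val G r (H ⊔ edge u v)) (mem_univ v))

theorem val_nonneg : ∀ (r : ℕ) (H : SimpleGraph (Fin n)), 0 ≤ val G r H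
  | 0, H => by simp only [val]; split_ifs <;> norm_num
  | r + 1, H => by
    have := le_val_succ G (r := r) (H := H) (fun _ => 0) fun u => ⟨u, val_nonneg r _⟩
    simpa using this

theorem val_le_one : ∀ (r : ℕ) (H : SimpleGraph (Fin n)), val G r H ≤ 1
  | 0, H => by simp only [val]; split_ifs <;> norm_num
  | r + 1, H => by
    refine (val_succ_le G (r := r) (H := H) (fun _ => 1) fun u v => val_le_one r _).trans ?_
    simp only [sum_const, card_univ, Fintype.card_fin, nsmul_eq_mul, mul_one]
    exact div_self_le_one _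

theorem val_of_contains (hn : 0 < n) :
    ∀ (r : ℕ) (H : SimpleGraph (Fin n)), G ⊑ H → val G r H = 1
  | 0, H, h => by simp [val, h]
  | r + 1, H, h => by
    refine le_antisymm (val_le_one G _ _) ?_
    have := le_val_succ G (r := r) (H := H) (fun _ => 1) fun u =>
      ⟨u, (val_of_contains hn r _ (h.mono_right le_sup_left)).ge⟩
    have hn' : (n : ℝ) ≠ 0 := by positivity
    simpa [hn'] using this

/-- Averaging a function that takes three values. -/
theorem sum_three (A B : Finset (Fin n)) (hAB : A ⊆ B) (x y z : ℝ) [DecidableEq (Fin n)] :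
    (∑ u, if u ∈ A then x else if u ∈ B then y else z)
      = A.card * x + (B.card - A.card) * y + (n - B.card) * z := by
  have h1 : ∀ u : Fin n, (if u ∈ A then x else if u ∈ B then y else z)
      = (if u ∈ A then x - y else 0) + (if u ∈ B then y - z else 0) + z := by
    intro u
    by_cases hA : u ∈ A
    · simp [hA, hAB hA]
    · by_cases hB : u ∈ B <;> simp [hA, hB]
  simp only [h1, sum_add_distrib, sum_ite_mem, univ_inter, sum_const, nsmul_eq_mul, card_univ,
    Fintype.card_fin]
  ring

end Pool.Agent.Lib.SRG
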