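import Pool.Agent.Lib.MP_8954a7_pr.Basic

/-! Decomposition of the current graph into a cyclic part and tree components. -/

namespace Pool.Agent.Lib.SRG

open SimpleGraph Finset

open Classical in
/-- Twice the number of edges inside `S`. -/
noncomputable def E2 {α : Type*} (H : SimpleGraph α) (S : Finset α) : ℕ :=
  ((S ×ˢ S).filter fun p => H.Adj p.1 p.2).card

section E2

variable {α : Type*} [DecidableEq α] {H : SimpleGraph α} {S : Finset α} {u v : α}

theorem E2_sup_le (H : SimpleGraph α) (u v : α) (S : Finset α) :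
    E2 (H ⊔ edge u v) S ≤ E2 H S + 2 := by
  classical
  unfold E2
  refine (card_le_card (t := ((S ×ˢ S).filter fun p => H.Adj p.1 p.2) ∪ {(u, v), (v, u)})
    ?_).trans ((card_union_le _ _).trans (Nat.add_le_add_left card_le_two _))
  rintro ⟨a, b⟩ h
  simp only [mem_filter, mem_product, sup_adj, edge_adj, mem_union, mem_insert, Prod.mk.injEq,
    mem_singleton] at h ⊢
  tauto

omit [DecidableEq α] in
theorem E2_sup_eq (h : u ∉ S ∨ v ∉ S) : E2 (H ⊔ edge u v) S = E2 H S := by
  classical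
  unfold E2
  congr 1
  ext ⟨a, b⟩
  simp only [mem_filter, mem_product, sup_adj, edge_adj]
  constructor
  · rintro ⟨⟨ha, hb⟩, h1 | ⟨⟨rfl, rfl⟩ | ⟨rfl, rfl⟩, -⟩⟩
    · exact ⟨⟨ha, hb⟩, h1⟩
    · tauto
    · tauto
  · tauto

theorem E2_split (S A : Finset α) (h : ∀ x ∈ A, ∀ y, H.Adj x y → y ∈ A) :
    E2 H S ≤ E2 H (S ∩ A) + E2 H (S \ A) := by
  classical
  unfold E2
  refine le_trans (card_le_card ?_) (card_union_le _ _)
  rintro ⟨a, b⟩ hab
  simp only [mem_filter, mem_product, mem_union, mem_inter, mem_sdiff] at hab ⊢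
  obtain ⟨⟨ha, hb⟩, hadj⟩ := hab
  by_cases h1 : a ∈ A
  · exact Or.inl ⟨⟨⟨ha, h1⟩, hb, h a h1 b hadj⟩, hadj⟩
  · exact Or.inr ⟨⟨⟨ha, h1⟩, hb, fun h2 => h1 (h b h2 a hadj.symm)⟩, hadj⟩

omit [DecidableEq α] in
theorem E2_empty (H : SimpleGraph α) : E2 H ∅ = 0 := by simp [E2]

omit [DecidableEq α] in
theorem E2_bot (S : Finset α) : E2 (⊥ : SimpleGraph α) S = 0 := by simp [E2]

theorem E2_copy {β : Type*} [Fintype β] {G : SimpleGraph β} (f : Copy G H) :
    E2 G univ ≤ E2 H (univ.image f) := by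
  classical
  unfold E2
  refine card_le_card_of_injOn (fun p => (f p.1, f p.2)) ?_ ?_
  · rintro ⟨a, b⟩ h
    simp only [coe_filter, mem_product, mem_univ, true_and, Set.mem_ofPred_eq, mem_image] at h ⊢
    exact ⟨⟨⟨a, rfl⟩, b, rfl⟩, f.toHom.map_rel h⟩
  · rintro ⟨a, b⟩ - ⟨c, d⟩ - h
    simp only [Prod.mk.injEq] at h ⊢
    exact ⟨f.injective h.1, f.injective h.2⟩

omit [DecidableEq α] in
theorem E2_univ [Fintype α] (H : SimpleGraph α) : E2 H univ = 2 * H.edgeSet.ncard := by
  classical
  have h1 := H.two_mul_card_edgeFinset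
  rw [Set.ncard_eq_toFinset_card', ← edgeFinset, h1]
  unfold E2
  congr 1

end E2

variable {n : ℕ}

structure Dec (H : SimpleGraph (Fin n)) (τ : ℕ) where
  K : Finset (Fin n)
  T : Finset (Finset (Fin n))
  P : ℕ
  cover : ∀ x, x ∉ K → ∃ A ∈ T, x ∈ A
  disj : ∀ A ∈ T, ∀ B ∈ T, ∀ x ∈ A, x ∈ B → A = B
  disjK : ∀ A ∈ T, ∀ x ∈ A, x ∉ K
  ne : ∀ A ∈ T, A.Nonempty
  closed : ∀ A ∈ T, ∀ x ∈ A, ∀ y, H.Adj x y → y ∈ A
  tree : ∀ A ∈ T, ∀ S ⊆ A, S.Nonempty → E2 H S + 2 ≤ 2 * S.card
  cyc : ∀ S ⊆ K, E2 H S ≤ 2 * S.card + 2 * (P - 1)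
  K0 : P = 0 → K = ∅
  two : ∀ A ∈ T, A.card = 2 → ∀ x ∈ A, ∀ y ∈ A, x ≠ y → H.Adj x y
  budget : K.card + ∑ A ∈ T, (A.card - 1) ≤ τ

namespace Dec

variable {H : SimpleGraph (Fin n)} {τ : ℕ}

def mass (D : Dec H τ) : ℕ := D.K.card + ∑ A ∈ D.T, (A.card - 3)

def init (n : ℕ) : Dec (⊥ : SimpleGraph (Fin n)) 0 where
  K := ∅
  T := univ.image fun x => {x}
  P := 0
  cover x _ := ⟨{x}, mem_image.2 ⟨x, mem_univ _, rfl⟩, mem_singleton_self x⟩
  disj A hA B hB x h1 h2 := by
    obtain ⟨a, -, rfl⟩ := mem_image.1 hA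
    obtain ⟨b, -, rfl⟩ := mem_image.1 hB
    rw [mem_singleton] at h1 h2
    rw [← h1, ← h2]
  disjK _ _ _ _ := notMem_empty _
  ne A hA := by
    obtain ⟨a, -, rfl⟩ := mem_image.1 hA
    exact singleton_nonempty a
  closed _ _ _ _ _ h := h.elim
  tree A _ S _ hS := by
    have := hS.card_pos
    rw [E2_bot]; omega
  cyc S _ := by rw [E2_bot]; omega
  K0 _ := rfl
  two A hA h := by
    obtain ⟨a, -, rfl⟩ := mem_image.1 hA
    simp at h
  budget := by
    simp only [card_empty, zero_add, nonpos_iff_eq_zero]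
    refine sum_eq_zero fun A hA => ?_
    obtain ⟨a, -, rfl⟩ := mem_image.1 hA
    simp

theorem init_mass (n : ℕ) : (init n).mass = 0 := by
  simp only [mass, init, card_empty, zero_add]
  refine sum_eq_zero fun A hA => ?_
  obtain ⟨a, -, rfl⟩ := mem_image.1 hA
  simp

theorem global (D : Dec H τ) (S : Finset (Fin n)) : E2 H S ≤ 2 * S.card + 2 * (D.P - 1) := by
  induction S using Finset.strongInduction with
  | H S ih =>
    by_cases h : S ⊆ D.K
    · exact D.cyc S h
    · obtain ⟨x, hx, hxK⟩ := not_subset.1 h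
      obtain ⟨A, hA, hxA⟩ := D.cover x hxK
      have h1 := E2_split (H := H) S A (D.closed A hA)
      have h2 := D.tree A hA (S ∩ A) inter_subset_right ⟨x, mem_inter.2 ⟨hx, hxA⟩⟩
      have h3 := ih (S \ A) ⟨sdiff_subset, fun h => (mem_sdiff.1 (h hx)).2 hxA⟩
      have h4 := card_inter_add_card_sdiff S A
      omega

theorem count (D : Dec H τ) (X : Finset (Fin n)) :
    X.card ≤ D.K.card + ∑ A ∈ D.T, (X ∩ A).card := by
  refine le_trans (card_le_card (t := D.K ∪ D.T.biUnion fun A => X ∩ A) fun x hx => ?_)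
    ((card_union_le _ _).trans (Nat.add_le_add_left card_biUnion_le _))
  by_cases h : x ∈ D.K
  · exact mem_union_left _ h
  · obtain ⟨A, hA, hxA⟩ := D.cover x h
    exact mem_union_right _ (mem_biUnion.2 ⟨A, hA, mem_inter.2 ⟨hx, hxA⟩⟩)

theorem mass_le (D : Dec H τ) : D.mass ≤ τ := by
  refine le_trans (Nat.add_le_add_left (sum_le_sum fun A _ => ?_) _) D.budget
  omega

/-- Vertices that are not singleton components. -/
def touched (D : Dec H τ) : Finset (Fin n) := univ.filter fun u => {u} ∉ D.T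

/-- Vertices in tree components with at least three vertices. -/
def cap (D : Dec H τ) : Finset (Fin n) := univ.filter fun u => ∃ A ∈ D.T, u ∈ A ∧ 3 ≤ A.card

theorem touched_card (D : Dec H τ) : D.touched.card ≤ 2 * τ := by
  have h1 := D.count D.touched
  have h2 : ∑ A ∈ D.T, (D.touched ∩ A).card ≤ ∑ A ∈ D.T, 2 * (A.card - 1) := by
    refine sum_le_sum fun A hA => ?_
    by_cases h : A.card = 1
    · obtain ⟨a, rfl⟩ := card_eq_one.1 h
      have : D.touched ∩ {a} = ∅ := by
        ext x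
        simp only [touched, mem_inter, mem_filter, mem_univ, true_and, mem_singleton,
          notMem_empty, iff_false, not_and]
        rintro h' rfl
        exact h' hA
      simp [this]
    · have := card_le_card (inter_subset_right (s₁ := D.touched) (s₂ := A))
      omega
  rw [← mul_sum] at h2
  have := D.budget
  omega

theorem K_sub (D : Dec H τ) : D.K ⊆ D.touched := fun x hx => by
  simp only [touched, mem_filter, mem_univ, true_and]
  exact fun h => D.disjK _ h x (mem_singleton_self x) hx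

theorem cap_sub (D : Dec H τ) : D.cap ⊆ D.touched := fun x hx => by
  simp only [touched, cap, mem_filter, mem_univ, true_and] at hx ⊢
  obtain ⟨A, hA, hxA, h3⟩ := hx
  intro h
  rw [D.disj A hA _ h x hxA (mem_singleton_self x)] at h3
  simp at h3

theorem cap_card (D : Dec H τ) (h0 : D.P = 0) : 2 * D.cap.card + D.mass ≤ 3 * τ := by
  have h1 := D.count D.cap
  have h2 : ∑ A ∈ D.T, (2 * (D.cap ∩ A).card + (A.card - 3)) ≤ ∑ A ∈ D.T, 3 * (A.card - 1) := by
    refine sum_le_sum fun A hA => ?_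
    by_cases h : 3 ≤ A.card
    · have := card_le_card (inter_subset_right (s₁ := D.cap) (s₂ := A))
      omega
    · have : D.cap ∩ A = ∅ := by
        ext x
        simp only [cap, mem_inter, mem_filter, mem_univ, true_and, notMem_empty, iff_false, not_and]
        rintro ⟨B, hB, hxB, h3⟩ hxA
        rw [D.disj B hB A hA x hxB hxA] at h3
        exact h h3
      rw [this, card_empty]; omega
  rw [sum_add_distrib, ← mul_sum, ← mul_sum] at h2
  have := D.budget
  have h3 := D.K0 h0
  unfold mass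
  rw [h3, card_empty] at *
  omega

/-- What one round can change. -/
structure Rel {H H' : SimpleGraph (Fin n)} {τ τ' : ℕ} (D : Dec H τ) (D' : Dec H' τ') (u : Fin n) :
    Prop where
  P_le : D'.P ≤ D.P + 1
  P_ge : D.P ≤ D'.P
  P_eq : 1 ≤ D.P → u ∉ D.K → D'.P = D.P
  P_zero : D.P = 0 → u ∉ D.cap → D'.P = 0
  m_le : D'.mass ≤ D.mass + 6
  m_ge : D.mass ≤ D'.mass + 6
  m_fresh : u ∉ D.touched → D'.mass ≤ D.mass + 1

theorem step_same (D : Dec H τ) (u : Fin n) : ∃ D' : Dec H (τ + 1), D.Rel D' u :=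
  ⟨{ D with budget := D.budget.trans (Nat.le_succ _) },
    ⟨Nat.le_succ _, le_rfl, fun _ _ => rfl, fun h _ => h, Nat.le_add_right _ _,
      Nat.le_add_right _ _, fun _ => Nat.le_add_right _ _⟩⟩

theorem step_KK (D : Dec H τ) {u v : Fin n} (hu : u ∈ D.K) (hv : v ∈ D.K) :
    ∃ D' : Dec (H ⊔ edge u v) (τ + 1), D.Rel D' u := by
  have hP : D.P ≠ 0 := fun h => by rw [D.K0 h] at hu; exact notMem_empty _ hu
  refine ⟨⟨D.K, D.T, D.P + 1, D.cover, D.disj, D.disjK, D.ne, ?_, ?_, ?_, ?_, ?_,
    D.budget.trans (Nat.le_succ _)⟩, le_rfl, Nat.le_succ _, fun _ h => (h hu).elim,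
    fun h => (hP h).elim, Nat.le_add_right _ _, Nat.le_add_right _ _,
    fun _ => Nat.le_add_right _ _⟩
  · intro A hA x hx y hxy
    rcases hxy with h | h
    · exact D.closed A hA x hx y h
    · rw [edge_adj] at h
      rcases h.1 with ⟨rfl, -⟩ | ⟨rfl, -⟩
      · exact (D.disjK A hA _ hx hu).elim
      · exact (D.disjK A hA _ hx hv).elim
  · intro A hA S hS hne
    rw [E2_sup_eq (Or.inl fun h => D.disjK A hA u (hS h) hu)]
    exact D.tree A hA S hS hne
  · intro S hS
    have := E2_sup_le H u v S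
    have := D.cyc S hS
    omega
  · intro h; omega
  · exact fun A hA h x hx y hy hxy => Or.inl (D.two A hA h x hx y hy hxy)

theorem step_absorb (D : Dec H τ) {u v : Fin n} {A : Finset (Fin n)} (hA : A ∈ D.T)
    (hu : u ∈ D.K ∪ A) (hv : v ∈ D.K ∪ A) (huv : u ∈ A ∨ v ∈ A) (hne : u ≠ v)
    (hna : ¬H.Adj u v) : ∃ D' : Dec (H ⊔ edge u v) (τ + 1), D.Rel D' u := by
  have hout : ∀ B ∈ D.T.erase A, ∀ x ∈ B, x ∉ D.K ∪ A := fun B hB x hx h => by
    rcases mem_union.1 h with h | h
    · exact D.disjK B (mem_of_mem_erase hB) x hx h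
    · exact ne_of_mem_erase hB (D.disj B (mem_of_mem_erase hB) A hA x hx h)
  have hcard : (D.K ∪ A).card = D.K.card + A.card :=
    card_union_of_disjoint (disjoint_right.2 fun x hx => D.disjK A hA x hx)
  have hA1 := (D.ne A hA).card_pos
  have hs1 := add_sum_erase D.T (fun B => B.card - 1) hA
  have hs3 := add_sum_erase D.T (fun B => B.card - 3) hA
  refine ⟨⟨D.K ∪ A, D.T.erase A, max D.P 1, ?_, ?_, hout, ?_, ?_, ?_, ?_, ?_, ?_, ?_⟩,
    ?_, ?_, ?_, ?_, ?_, ?_, ?_⟩
  · intro x hx
    obtain ⟨B, hB, hxB⟩ := D.cover x fun h => hx (mem_union_left _ h)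
    exact ⟨B, mem_erase.2 ⟨fun h => hx (mem_union_right _ (h ▸ hxB)), hB⟩, hxB⟩
  · exact fun B hB C hC => D.disj B (mem_of_mem_erase hB) C (mem_of_mem_erase hC)
  · exact fun B hB => D.ne B (mem_of_mem_erase hB)
  · intro B hB x hx y hxy
    rcases hxy with h | h
    · exact D.closed B (mem_of_mem_erase hB) x hx y h
    · rw [edge_adj] at h
      rcases h.1 with ⟨rfl, -⟩ | ⟨rfl, -⟩
      · exact (hout B hB _ hx hu).elim
      · exact (hout B hB _ hx hv).elim
  · intro B hB S hS hSne
    rw [E2_sup_eq (Or.inl fun h => hout B hB u (hS h) hu)]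
    exact D.tree B (mem_of_mem_erase hB) S hS hSne
  · intro S hS
    have h1 := E2_split (H := H) S A (D.closed A hA)
    have h2 := D.cyc (S \ A) fun x hx => by
      rcases mem_union.1 (hS (mem_sdiff.1 hx).1) with h | h
      · exact h
      · exact ((mem_sdiff.1 hx).2 h).elim
    have h4 := card_inter_add_card_sdiff S A
    rcases (S ∩ A).eq_empty_or_nonempty with h0 | h0
    · have h5 : u ∉ S ∨ v ∉ S := by
        rcases huv with h | h
        · exact Or.inl fun h' => notMem_empty u (h0 ▸ mem_inter.2 ⟨h', h⟩)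
        · exact Or.inr fun h' => notMem_empty v (h0 ▸ mem_inter.2 ⟨h', h⟩)
      rw [E2_sup_eq h5]
      rw [h0, E2_empty] at h1
      omega
    · have := D.tree A hA _ inter_subset_right h0
      have := E2_sup_le H u v S
      omega
  · intro h; omega
  · exact fun B hB h x hx y hy hxy => Or.inl (D.two B (mem_of_mem_erase hB) h x hx y hy hxy)
  · have := D.budget
    omega
  · simp only; omega
  · simp only; omega
  · intro h _; simp only; omega
  · intro h0 hc
    exfalso
    rw [D.K0 h0, empty_union] at hu hv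
    have h2 : A.card ≠ 2 := fun h => hna (D.two A hA h u hu v hv hne)
    have h3 : 1 < A.card := one_lt_card.2 ⟨u, hu, v, hv, hne⟩
    exact hc (mem_filter.2 ⟨mem_univ _, A, hA, hu, by omega⟩)
  · simp only [mass] at hs3 ⊢; omega
  · simp only [mass] at hs3 ⊢; omega
  · intro hf
    simp only [touched, mem_filter, mem_univ, true_and, not_not] at hf
    have huA : u ∈ A := by
      rcases mem_union.1 hu with h | h
      · exact (D.disjK _ hf u (mem_singleton_self u) h).elim
      · exact h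
    have : A.card = 1 := by rw [D.disj A hA _ hf u huA (mem_singleton_self u)]; simp
    simp only [mass] at hs3 ⊢; omega

theorem step_merge (D : Dec H τ) {u v : Fin n} {A B : Finset (Fin n)} (hA : A ∈ D.T)
    (hB : B ∈ D.T) (hAB : A ≠ B) (hu : u ∈ A) (hv : v ∈ B) :
    ∃ D' : Dec (H ⊔ edge u v) (τ + 1), D.Rel D' u := by
  have hd : Disjoint A B := disjoint_left.2 fun x h1 h2 => hAB (D.disj A hA B hB x h1 h2)
  have hmem : ∀ C, C ∈ (D.T.erase A).erase B ↔ C ∈ D.T ∧ C ≠ A ∧ C ≠ B := fun C => by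
    simp only [mem_erase]; tauto
  have hout : ∀ C ∈ (D.T.erase A).erase B, ∀ x ∈ C, x ∉ A ∪ B := fun C hC x hx h => by
    obtain ⟨h1, h2, h3⟩ := (hmem C).1 hC
    rcases mem_union.1 h with h | h
    · exact h2 (D.disj C h1 A hA x hx h)
    · exact h3 (D.disj C h1 B hB x hx h)
  have hnew : A ∪ B ∉ (D.T.erase A).erase B := fun h =>
    hout _ h u (mem_union_left _ hu) (mem_union_left _ hu)
  have hcard : (A ∪ B).card = A.card + B.card := card_union_of_disjoint hd
  have hA1 := (D.ne A hA).card_pos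
  have hB1 := (D.ne B hB).card_pos
  have hs : ∀ j : ℕ, ∑ C ∈ D.T, (C.card - j)
      = (A.card - j) + ((B.card - j) + ∑ C ∈ (D.T.erase A).erase B, (C.card - j)) := fun j => by
    rw [add_sum_erase (D.T.erase A) (fun C => C.card - j) (mem_erase.2 ⟨hAB.symm, hB⟩),
      add_sum_erase D.T (fun C => C.card - j) hA]
  have hs1 := hs 1
  have hs3 := hs 3
  refine ⟨⟨D.K, insert (A ∪ B) ((D.T.erase A).erase B), D.P, ?_, ?_, ?_, ?_, ?_, ?_, ?_, D.K0,
    ?_, ?_⟩, Nat.le_succ _, le_rfl, fun _ _ => rfl, fun h _ => h, ?_, ?_, ?_⟩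
  · intro x hx
    obtain ⟨C, hC, hxC⟩ := D.cover x hx
    by_cases h : x ∈ A ∪ B
    · exact ⟨_, mem_insert_self _ _, h⟩
    · exact ⟨C, mem_insert_of_mem ((hmem C).2 ⟨hC, fun e => h (mem_union_left _ (e ▸ hxC)),
        fun e => h (mem_union_right _ (e ▸ hxC))⟩), hxC⟩
  · intro C hC C' hC' x h1 h2
    rcases mem_insert.1 hC with rfl | hC <;> rcases mem_insert.1 hC' with rfl | hC'
    · rfl
    · exact (hout _ hC' x h2 h1).elim
    · exact (hout _ hC x h1 h2).elim
    · exact D.disj C ((hmem C).1 hC).1 C' ((hmem C').1 hC').1 x h1 h2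
  · intro C hC x hx
    rcases mem_insert.1 hC with rfl | hC
    · rcases mem_union.1 hx with h | h
      · exact D.disjK A hA x h
      · exact D.disjK B hB x h
    · exact D.disjK C ((hmem C).1 hC).1 x hx
  · intro C hC
    rcases mem_insert.1 hC with rfl | hC
    · exact ⟨u, mem_union_left _ hu⟩
    · exact D.ne C ((hmem C).1 hC).1
  · intro C hC x hx y hxy
    rcases mem_insert.1 hC with rfl | hC
    · rcases hxy with h | h
      · rcases mem_union.1 hx with h' | h'
        · exact mem_union_left _ (D.closed A hA x h' y h)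
        · exact mem_union_right _ (D.closed B hB x h' y h)
      · rw [edge_adj] at h
        rcases h.1 with ⟨-, rfl⟩ | ⟨-, rfl⟩
        · exact mem_union_right _ hv
        · exact mem_union_left _ hu
    · rcases hxy with h | h
      · exact D.closed C ((hmem C).1 hC).1 x hx y h
      · rw [edge_adj] at h
        rcases h.1 with ⟨rfl, -⟩ | ⟨rfl, -⟩
        · exact (hout C hC _ hx (mem_union_left _ hu)).elim
        · exact (hout C hC _ hx (mem_union_right _ hv)).elim
  · intro C hC S hS hSne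
    rcases mem_insert.1 hC with rfl | hC
    · have h1 := E2_split (H := H) S A (D.closed A hA)
      have h4 := card_inter_add_card_sdiff S A
      have hsub : S \ A ⊆ B := fun x hx => by
        rcases mem_union.1 (hS (mem_sdiff.1 hx).1) with h | h
        · exact ((mem_sdiff.1 hx).2 h).elim
        · exact h
      rcases (S ∩ A).eq_empty_or_nonempty with h0 | h0
      · rw [E2_sup_eq (Or.inl fun h' => notMem_empty u (h0 ▸ mem_inter.2 ⟨h', hu⟩))]
        refine D.tree B hB S (fun x hx => hsub (mem_sdiff.2 ⟨hx, fun h => ?_⟩)) hSne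
        exact notMem_empty x (h0 ▸ mem_inter.2 ⟨hx, h⟩)
      · rcases (S \ A).eq_empty_or_nonempty with h2 | h2
        · have hSA : S ⊆ A := sdiff_eq_empty_iff_subset.1 h2
          rw [E2_sup_eq (Or.inr fun h' => disjoint_left.1 hd (hSA h') hv)]
          exact D.tree A hA S hSA hSne
        · have := D.tree A hA _ inter_subset_right h0
          have := D.tree B hB _ hsub h2
          have := E2_sup_le H u v S
          omega
    · rw [E2_sup_eq (Or.inl fun h => hout C hC u (hS h) (mem_union_left _ hu))]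
      exact D.tree C ((hmem C).1 hC).1 S hS hSne
  · intro S hS
    rw [E2_sup_eq (Or.inl fun h => D.disjK A hA u hu (hS h))]
    exact D.cyc S hS
  · intro C hC h2 x hx y hy hxy
    rcases mem_insert.1 hC with rfl | hC
    · have a1 : A = {u} := eq_singleton_iff_unique_mem.2
        ⟨hu, fun z hz => card_le_one.1 (by omega) z hz u hu⟩
      have a2 : B = {v} := eq_singleton_iff_unique_mem.2
        ⟨hv, fun z hz => card_le_one.1 (by omega) z hz v hv⟩
      right
      rw [edge_adj]
      rw [a1, a2] at hx hy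
      simp only [mem_union, mem_singleton] at hx hy
      refine ⟨?_, hxy⟩
      rcases hx with rfl | rfl <;> rcases hy with rfl | rfl <;> simp_all
    · exact Or.inl (D.two C ((hmem C).1 hC).1 h2 x hx y hy hxy)
  · have := D.budget
    rw [sum_insert hnew]
    omega
  · simp only [mass, sum_insert hnew]; omega
  · simp only [mass, sum_insert hnew]; omega
  · intro hf
    simp only [touched, mem_filter, mem_univ, true_and, not_not] at hf
    have : A.card = 1 := by rw [D.disj A hA _ hf u hu (mem_singleton_self u)]; simp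
    simp only [mass, sum_insert hnew]; omega

theorem step (D : Dec H τ) (u v : Fin n) : ∃ D' : Dec (H ⊔ edge u v) (τ + 1), D.Rel D' u := by
  by_cases hne : u = v
  · subst hne; rw [sup_edge_self]; exact D.step_same u
  by_cases hna : H.Adj u v
  · rw [sup_edge_of_adj _ hna]; exact D.step_same u
  by_cases hu : u ∈ D.K <;> by_cases hv : v ∈ D.K
  · exact D.step_KK hu hv
  · obtain ⟨A, hA, h⟩ := D.cover v hv
    exact D.step_absorb hA (mem_union_left _ hu) (mem_union_right _ h) (Or.inr h) hne hna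
  · obtain ⟨A, hA, h⟩ := D.cover u hu
    exact D.step_absorb hA (mem_union_right _ h) (mem_union_left _ hv) (Or.inl h) hne hna
  · obtain ⟨A, hA, h⟩ := D.cover u hu
    obtain ⟨B, hB, h'⟩ := D.cover v hv
    by_cases hAB : A = B
    · subst hAB
      exact D.step_absorb hA (mem_union_right _ h) (mem_union_right _ h') (Or.inl h) hne hna
    · exact D.step_merge hA hB hAB h h'

end Dec

end Pool.Agent.Lib.SRG
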