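import Mathlib

/-! The semi-random graph process (s = 2, r = 1) and the optimal success probability. -/

namespace Pool.Agent.Lib.SRG

open SimpleGraph

/-- A history: the list of rounds `(u_1, v_1), ..., (u_t, v_t)` played so far, oldest first. -/
abbrev Hist (n : ℕ) : Type := List (Fin n × Fin n)

/-- The simple graph underlying `H_t`: distinct `a, b` are adjacent iff some round added the
edge `{a, b}` (loops and parallel edges play no role for containing a simple graph). -/
def graphOf {n : ℕ} (h : Hist n) : SimpleGraph (Fin n) :=
  SimpleGraph.fromRel fun a b => (a, b) ∈ h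

/-- A (randomised) strategy on `[n]`: for every history `h` and drawn vertex `u`, a probability
distribution `v ↦ w h u v` of the vertex chosen by the player. -/
structure Strategy (n : ℕ) where
  w : Hist n → Fin n → Fin n → ℝ
  nonneg : ∀ h u v, 0 ≤ w h u v
  sum_one : ∀ h u, ∑ v, w h u v = 1

open Classical in
/-- Probability that the graph contains a copy of `G` after `r` further rounds, started from the
history `h`, when `u` is uniform on `[n]` in each round and `v` is drawn according to `S`. -/
noncomputable def succProb {V : Type*} (G : SimpleGraph V) {n : ℕ} (S : Strategy n) :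
    ℕ → Hist n → ℝ
  | 0, h => if G ⊑ graphOf h then 1 else 0
  | r + 1, h => (∑ u, ∑ v, S.w h u v * succProb G S r (h ++ [(u, v)])) / n

/-- `sup_S P[H_t^S(n) contains a copy of G]`. -/
noncomputable def optProb {V : Type*} (G : SimpleGraph V) (n t : ℕ) : ℝ :=
  ⨆ S : Strategy n, succProb G S t []

end Pool.Agent.Lib.SRG
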