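import Pool.Agent.Lib.MP_8954a7_pr.Lower

/-! Building orders. -/

namespace Pool.Agent.Lib.SRG

open SimpleGraph Finset

variable {V : Type*} [DecidableEq V] {G : SimpleGraph V}

theorem E2_insert {S N : Finset V} {v : V} (hv : v ∉ S) (hN : N ⊆ S) (h : ∀ w ∈ N, G.Adj v w) :
    E2 G S + 2 * N.card ≤ E2 G (insert v S) := by
  classical
  unfold E2
  have d1 : Disjoint ((S ×ˢ S).filter fun p => G.Adj p.1 p.2) (({v} ×ˢ N) ∪ (N ×ˢ {v})) := by
    rw [Finset.disjoint_left]
    rintro ⟨a, b⟩ h1 h2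
    simp only [mem_filter, mem_product, mem_union, mem_singleton] at h1 h2
    rcases h2 with ⟨rfl, -⟩ | ⟨-, rfl⟩
    · exact hv h1.1.1
    · exact hv h1.1.2
  have d2 : Disjoint (({v} : Finset V) ×ˢ N) (N ×ˢ {v}) := by
    rw [Finset.disjoint_left]
    rintro ⟨a, b⟩ h1 h2
    simp only [mem_product, mem_singleton] at h1 h2
    exact hv (hN (h1.1 ▸ h2.1))
  have := card_le_card (s := ((S ×ˢ S).filter fun p => G.Adj p.1 p.2) ∪
    (({v} ×ˢ N) ∪ (N ×ˢ {v}))) (t := (insert v S ×ˢ insert v S).filter fun p => G.Adj p.1 p.2) (by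
      rintro ⟨a, b⟩ h1
      simp only [mem_filter, mem_product, mem_union, mem_singleton, mem_insert] at h1 ⊢
      rcases h1 with h1 | ⟨rfl, h1⟩ | ⟨h1, rfl⟩
      · exact ⟨⟨Or.inr h1.1.1, Or.inr h1.1.2⟩, h1.2⟩
      · exact ⟨⟨Or.inl rfl, Or.inr (hN h1)⟩, h _ h1⟩
      · exact ⟨⟨Or.inr (hN h1), Or.inl rfl⟩, (h _ h1).symm⟩)
  rw [card_union_of_disjoint d1, card_union_of_disjoint d2, card_product, card_product,
    card_singleton] at this
  omega

theorem E2_insert_one {S : Finset V} {v p : V} (hv : v ∉ S) (hp : p ∈ S) (h : G.Adj v p) :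
    E2 G S + 2 ≤ E2 G (insert v S) := by
  simpa using E2_insert (N := {p}) hv (by simpa using hp) (by simpa using h)

theorem E2_insert_two {S : Finset V} {v p q : V} (hv : v ∉ S) (hp : p ∈ S) (hq : q ∈ S)
    (hpq : p ≠ q) (h : G.Adj v p) (h' : G.Adj v q) : E2 G S + 4 ≤ E2 G (insert v S) := by
  have := E2_insert (G := G) (N := {p, q}) hv (by simp [insert_subset_iff, hp, hq])
    (by simp [h, h'])
  rwa [card_pair hpq] at this

omit [DecidableEq V] in
theorem exists_out {S : Finset V} {a b : V} (h : G.Reachable a b) (ha : a ∈ S) (hb : b ∉ S) :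
    ∃ v ∉ S, ∃ p ∈ S, G.Adj v p := by
  obtain ⟨w⟩ := h
  obtain ⟨d, -, h1, h2⟩ := w.exists_boundary_dart (S : Set V) ha hb
  exact ⟨_, h2, _, h1, d.adj.symm⟩

variable [Fintype V]

theorem grow_ind {P : Finset V → Prop} (h0 : P univ)
    (h1 : ∀ S, (∃ b, b ∉ S) → (∀ v ∉ S, P (insert v S)) → P S) (S : Finset V) : P S := by
  induction h : Fintype.card V - S.card generalizing S with
  | zero => rwa [eq_univ_of_card S (le_antisymm (card_le_univ S) (by omega))]
  | succ k ih =>
    refine h1 S ?_ fun v hv => ih _ (by rw [card_insert_of_notMem hv]; omega)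
    by_contra! h2
    rw [eq_univ_of_forall h2, card_univ] at h
    omega

theorem E2_grow (hc : G.Preconnected) (S : Finset V) :
    S.Nonempty → E2 G S + 2 * Fintype.card V ≤ E2 G univ + 2 * S.card := by
  induction S using grow_ind with
  | h0 => intro; rw [card_univ]
  | h1 S hb ih =>
    rintro ⟨a, ha⟩
    obtain ⟨b, hb⟩ := hb
    obtain ⟨v, hv, p, hp, h⟩ := exists_out (hc a b) ha hb
    have h1 := ih v hv (insert_nonempty _ _)
    have h2 := E2_insert_one hv hp h
    rw [card_insert_of_notMem hv] at h1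
    omega

theorem build_uni (hc : G.Preconnected) (hE : E2 G univ ≤ 2 * Fintype.card V) (x : V)
    (S : Finset V) :
    S.Nonempty → 2 * S.card ≤ E2 G S → ∃ a, a + S.card ≤ Fintype.card V ∧ Build G x S a 0 := by
  induction S using grow_ind with
  | h0 => exact fun _ _ => ⟨0, by simp, Build.done⟩
  | h1 S hb ih =>
    rintro ⟨a, ha⟩ hS
    obtain ⟨b, hb⟩ := hb
    obtain ⟨v, hv, p, hp, h⟩ := exists_out (hc a b) ha hb
    have h2 := E2_insert_one hv hp h
    have h3 := card_insert_of_notMem hv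
    obtain ⟨c, h4, h5⟩ := ih v hv (insert_nonempty _ _) (by omega)
    refine ⟨c + 1, by omega, Build.free hv hp (fun w hw hw' => ?_) h5⟩
    by_contra h6
    have := E2_insert_two hv hw hp h6 hw' h
    have := E2_grow hc (insert v S) (insert_nonempty _ _)
    omega

/-- The edges inside a set. -/
def res (G : SimpleGraph V) (T : Set V) : SimpleGraph V where
  Adj a b := G.Adj a b ∧ a ∈ T ∧ b ∈ T
  symm := ⟨fun _ _ h => ⟨h.1.symm, h.2.2, h.2.1⟩⟩
  loopless := ⟨fun _ h => h.1.ne rfl⟩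

omit [DecidableEq V] [Fintype V] in
theorem one_back {x v p w : V} (hx : (G.induce {x}ᶜ).IsAcyclic) {T : Set V} (hT : x ∉ T)
    (hv : v ∉ T) (hvx : v ≠ x) (hpx : p ≠ x) (hwx : w ≠ x) (hp : G.Adj v p) (hw : G.Adj v w)
    (h : (res G T).Reachable w p) : w = p := by
  by_contra hne
  have key : ∀ a b (q : (res G T).Walk a b) (ha : a ≠ x) (hb : b ≠ x),
      ((G.induce {x}ᶜ).deleteEdges {s(⟨v, hvx⟩, ⟨p, hpx⟩)}).Reachable ⟨a, ha⟩ ⟨b, hb⟩ := by
    intro a b q
    induction q with
    | nil => exact fun _ _ => Reachable.refl _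
    | @cons a c b h q ih =>
      intro ha hb
      have hc : c ≠ x := fun e => hT (e ▸ h.2.2)
      refine Reachable.trans (Adj.reachable ?_) (ih hc hb)
      rw [deleteEdges_adj]
      refine ⟨h.1, fun e => ?_⟩
      simp only [Set.mem_singleton_iff, Sym2.eq_iff, Subtype.mk.injEq] at e
      rcases e with ⟨rfl, -⟩ | ⟨-, rfl⟩
      · exact hv h.2.1
      · exact hv h.2.2
  obtain ⟨q⟩ := h
  refine isAcyclic_iff_forall_adj_isBridge.1 hx (v := ⟨v, hvx⟩) (w := ⟨p, hpx⟩) hp
    (Reachable.trans (Adj.reachable ?_) (key w p q hwx hpx))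
  rw [deleteEdges_adj]
  refine ⟨hw, fun e => ?_⟩
  simp only [Set.mem_singleton_iff, Sym2.eq_iff, Subtype.mk.injEq] at e
  rcases e with ⟨-, e⟩ | ⟨e, -⟩
  · exact hne e
  · exact hp.ne e

theorem build_feed (hc : G.Preconnected) {x : V} (hx : (G.induce {x}ᶜ).IsAcyclic)
    (S : Finset V) : x ∈ S →
    (∀ a ∈ S, ∀ b ∈ S, (res G {x}ᶜ).Reachable a b → (res G (S \ {x})).Reachable a b) →
    ∃ a j, a + S.card ≤ Fintype.card V ∧ Build G x S a j ∧
      E2 G S + 2 * Fintype.card V + 2 * j ≤ E2 G univ + 2 * S.card := by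
  induction S using grow_ind with
  | h0 => exact fun _ _ => ⟨0, 0, by simp, Build.done, by simp⟩
  | h1 S hb ih =>
    intro hxS hI
    have hle : ∀ v, res G (S \ {x}) ≤ res G (↑(insert v S) \ {x}) := fun v a b h =>
      ⟨h.1, ⟨mem_insert_of_mem h.2.1.1, h.2.1.2⟩, mem_insert_of_mem h.2.2.1, h.2.2.2⟩
    by_cases h1 : ∃ v ∉ S, ∃ p ∈ S, p ≠ x ∧ G.Adj v p
    · obtain ⟨v, hv, p, hp, hpx, h⟩ := h1
      have hvx : v ≠ x := fun e => hv (e ▸ hxS)
      have r1 : (res G {x}ᶜ).Adj v p := ⟨h, hvx, hpx⟩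
      have r2 : (res G (↑(insert v S) \ {x})).Adj v p :=
        ⟨h, ⟨mem_insert_self _ _, hvx⟩, mem_insert_of_mem hp, hpx⟩
      have hw : ∀ w ∈ S, G.Adj v w → w = p ∨ w = x := fun w hw hw' => by
        refine (em (w = x)).symm.imp_left fun hwx => ?_
        have r3 : (res G {x}ᶜ).Adj v w := ⟨hw', hvx, hwx⟩
        exact one_back hx (fun e => e.2 rfl) (fun e => hv e.1) hvx hpx hwx h hw'
          (hI w hw p hp (r3.symm.reachable.trans r1.reachable))
      have h3 := card_insert_of_notMem hv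
      obtain ⟨a, j, h4, h5, h6⟩ := ih v hv (mem_insert_of_mem hxS) fun a ha b hb hab => by
        rw [mem_insert] at ha hb
        rcases ha with rfl | ha <;> rcases hb with rfl | hb
        · rfl
        · exact r2.reachable.trans ((hI p hp b hb (r1.symm.reachable.trans hab)).mono (hle _))
        · exact ((hI a ha p hp (hab.trans r1.reachable)).mono (hle _)).trans r2.symm.reachable
        · exact (hI a ha b hb hab).mono (hle _)
      by_cases h2 : G.Adj v x
      · have := E2_insert_two hv hp hxS hpx h h2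
        exact ⟨a, j + 1, by omega, Build.event hv hp hw h5, by omega⟩
      · have := E2_insert_one hv hp h
        exact ⟨a + 1, j, by omega, Build.free hv hp
          (fun w h7 h8 => (hw w h7 h8).resolve_right fun e => h2 (e ▸ h8)) h5, by omega⟩
    · obtain ⟨b, hb⟩ := hb
      obtain ⟨v, hv, p, hp, h⟩ := exists_out (hc x b) hxS hb
      have hw : ∀ w ∈ S, G.Adj v w → w = x := fun w hw hw' => by
        by_contra e; exact h1 ⟨v, hv, w, hw, e, hw'⟩
      have hn : ∀ a ∈ S, ¬(res G {x}ᶜ).Reachable a v := fun a ha hr => by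
        obtain ⟨v', hv', p', hp', h'⟩ := exists_out hr ha hv
        exact h1 ⟨v', hv', p', hp', h'.2.2, h'.1⟩
      have h3 := card_insert_of_notMem hv
      obtain ⟨a, j, h4, h5, h6⟩ := ih v hv (mem_insert_of_mem hxS) fun a ha b hb hab => by
        rw [mem_insert] at ha hb
        rcases ha with rfl | ha <;> rcases hb with rfl | hb
        · rfl
        · exact (hn b hb hab.symm).elim
        · exact (hn a ha hab).elim
        · exact (hI a ha b hb hab).mono (hle _)
      have := E2_insert_one hv hp h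
      exact ⟨a + 1, j, by omega, Build.free hv hxS hw h5, by omega⟩

omit [DecidableEq V] [Fintype V] in
theorem E2_singleton (x : V) : E2 G {x} = 0 := by simp [E2]

theorem lower_excess (hc : G.Preconnected) {x : V} (hx : (G.induce {x}ᶜ).IsAcyclic) {β : ℕ}
    (hβ : G.edgeSet.ncard + 1 ≤ Fintype.card V + β) {c ε : ℝ} (hc0 : 0 < c) (hε : 0 < ε) :
    ∀ᶠ n : ℕ in Filter.atTop, 1 - pQ β (c ^ 2 / 2) - ε ≤ optProb G n ⌊c * √(n : ℝ)⌋₊ := by
  obtain ⟨a, j, h1, hB, h2⟩ := build_feed hc hx {x} (mem_singleton_self x) fun a ha b hb _ => by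
    rw [mem_singleton.1 ha, mem_singleton.1 hb]
  rw [E2_singleton, E2_univ, card_singleton] at h2
  have hj : j ≤ β := by omega
  set N : ℝ := (Fintype.card V : ℝ) with hN
  have hN0 : 0 ≤ N := Nat.cast_nonneg _
  have ha : (a : ℝ) + 1 ≤ N := by rw [card_singleton] at h1; rw [hN]; exact_mod_cast h1
  have ha0 : (0 : ℝ) ≤ a := Nat.cast_nonneg _
  set C := c + N with hC
  set K := c * (N + 1) + N * C + c * (N + 3 * C ^ 2) with hK
  have hK0 : 0 < K := by positivity
  filter_upwards [small zero_lt_one, small (div_pos hε hK0),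
    small (show 0 < c / (N + 1) by positivity)] with n n1 n2 n3
  obtain ⟨s1, s2, s3, s4⟩ := scale hc0.le n1.1
  set h := 1 / √(n : ℝ)
  set t := ⌊c * √(n : ℝ)⌋₊
  have b3 := (lt_div_iff₀ (by positivity)).1 n3.2
  have hat : a ≤ t := by
    have : (a : ℝ) ≤ t := le_of_mul_le_mul_left (by nlinarith) s1
    exact_mod_cast this
  obtain ⟨s, hs⟩ := Nat.exists_eq_add_of_le hat
  have hs' : (t : ℝ) = a + s := by exact_mod_cast hs
  have := lower_ind (G := G) x n1.1 s1 s2 (C := C) t {x} a j s ⊥ (fun _ => ⟨0, n1.1⟩) ∅ hs hB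
    (mem_singleton_self x) ⟨fun v hv w hw _ => by rw [mem_singleton.1 hv, mem_singleton.1 hw],
      fun v hv w hw h => (h.ne (by rw [mem_singleton.1 hv, mem_singleton.1 hw])).elim⟩
    (disjoint_empty_right _) (by simp) (by
      simp only [card_empty, Nat.cast_zero, zero_add]; nlinarith [n1.2])
  rw [optProb_eq]
  refine le_trans ?_ this
  simp only [card_empty, Nat.cast_zero]
  have l0 := lamd_nonneg h zero_le_one s le_rfl
  have q1 := pQ_mono hj l0
  have q2 := (abs_le.1 (pQ_lip β l0 (y := c ^ 2 / 2) (by positivity))).2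
  have hs0 : (0 : ℝ) ≤ s := Nat.cast_nonneg _
  have q3 : |lamd h 1 s 0 - c ^ 2 / 2| ≤ h * (c * (N + 1)) := by
    have e : lamd h 1 s 0 = (h * s) * (h * s - h) / 2 := by unfold lamd; ring
    have u1 : h * s ≤ c := by nlinarith
    have u2 : c - h * N ≤ h * s := by nlinarith
    have u3 : 0 ≤ h * s := by positivity
    rw [e, abs_le]
    constructor <;> nlinarith
  have q4 : a * (h * C) ≤ h * (N * C) := by nlinarith [mul_pos s1 (show 0 < C by positivity)]
  have q5 : t * (h ^ 2 * (N + 3 * C ^ 2)) ≤ h * (c * (N + 3 * C ^ 2)) := by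
    have := mul_le_mul_of_nonneg_right s3 (show 0 ≤ h * (N + 3 * C ^ 2) by positivity)
    nlinarith
  have q6 := (lt_div_iff₀ hK0).1 n2.2
  nlinarith

end Pool.Agent.Lib.SRG
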