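import Pool.Agent.Lib.MP_8954a7_pr.Poi

/-! A closed-form subsolution of the Hamilton-Jacobi-Bellman inequality of the first stage. -/

namespace Pool.Agent.Lib.SRG

open Real

noncomputable def lam (T m : ℝ) : ℝ := m * T + T ^ 2 / 2

noncomputable def gg (T m : ℝ) : ℝ := T * (3 * m + 2 * T) / (4 * m + 2 * T)

noncomputable def Yy (k : ℕ) (T m f : ℝ) : ℝ := pa (k + 1) (lam T m) * exp (-(f * gg T m))

noncomputable def Psi (k : ℕ) (T m f : ℝ) : ℝ := pQ (k + 1) (lam T m) + Yy k T m f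

noncomputable def RR (k : ℕ) (T m f : ℝ) : ℝ := (m + 3 / 2 * f) * Yy k T m f

theorem lam_nonneg {T m : ℝ} (hT : 0 ≤ T) (hm : 0 ≤ m) : 0 ≤ lam T m := by
  unfold lam; positivity

theorem gg_nonneg {T m : ℝ} (hT : 0 ≤ T) (hm : 0 ≤ m) : 0 ≤ gg T m := by
  unfold gg; positivity

theorem Yy_nonneg (k : ℕ) {T m : ℝ} (f : ℝ) (hT : 0 ≤ T) (hm : 0 ≤ m) : 0 ≤ Yy k T m f :=
  mul_nonneg (pa_nonneg _ (lam_nonneg hT hm)) (exp_pos _).le

theorem Yy_le (k : ℕ) {T m f : ℝ} (hT : 0 ≤ T) (hm : 0 ≤ m) (hf : 0 ≤ f) :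
    Yy k T m f ≤ pa (k + 1) (lam T m) := by
  have h1 : exp (-(f * gg T m)) ≤ 1 := by
    rw [exp_le_one_iff]; have := gg_nonneg hT hm; nlinarith
  have := pa_nonneg (k + 1) (lam_nonneg hT hm)
  unfold Yy; nlinarith

theorem Psi_le_one (k : ℕ) {T m f : ℝ} (hT : 0 ≤ T) (hm : 0 ≤ m) (hf : 0 ≤ f) :
    Psi k T m f ≤ 1 := by
  have := Yy_le k hT hm hf
  have := pQ_le_one (k + 1 + 1) (lam_nonneg hT hm)
  rw [pQ_succ] at this
  unfold Psi; linarith

theorem Psi_f_zero (k : ℕ) (T m : ℝ) : Psi k T m 0 = pQ (k + 2) (lam T m) := by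
  simp [Psi, Yy, pQ_succ (k + 1)]

/-- The pointwise inequality for the derivative along an admissible direction. -/
theorem key_ineq {A A1 E T m f h y L g gT gm c : ℝ} (hA : 0 ≤ A) (hE : 0 ≤ E)
    (hT : 0 ≤ T) (hm : 0 ≤ m) (hf : 0 ≤ f) (hh : 0 ≤ h) (hy : 0 ≤ y) (hc0 : 0 ≤ c) (hc : c ≤ 1)
    (hL : 0 ≤ L) (hA1 : A1 = A * L * c) (hEg : E * (f * g) ≤ 1 - E) (hg0 : 0 ≤ g) (hgT : g ≤ T)
    (h1 : L * (3 / 2 - gT + gm) = m * g) (h2 : 0 ≤ T * g + L * gm) :
    h * ((m + 3 / 2 * f) * (A1 * E)) ≤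
      -A * (-h * m - y * T) + ((A - A1) * (-h * m - y * T) * E
        + A1 * (E * -(y * g + f * (-h * (gT - gm) - y * gm)))) := by
  have e : -A * (-h * m - y * T) + ((A - A1) * (-h * m - y * T) * E
        + A1 * (E * -(y * g + f * (-h * (gT - gm) - y * gm)))) - h * ((m + 3 / 2 * f) * (A1 * E))
      = h * (m * A * (1 - E) - A * E * f * c * (L * (3 / 2 - gT + gm)))
        + y * (T * A * (1 - E) + A * L * c * E * (T - g) + A * E * f * c * (L * gm)) := by
    rw [hA1]; ring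
  have b1 : 0 ≤ m * A * (1 - E) - A * E * f * c * (L * (3 / 2 - gT + gm)) := by
    rw [h1]
    have : m * A * (E * (f * g)) ≤ m * A * (1 - E) :=
      mul_le_mul_of_nonneg_left hEg (mul_nonneg hm hA)
    have h3 : 0 ≤ m * A * (E * (f * g)) * (1 - c) := by
      have : 0 ≤ 1 - c := by linarith
      positivity
    nlinarith
  have b2 : 0 ≤ T * A * (1 - E) + A * L * c * E * (T - g) + A * E * f * c * (L * gm) := by
    have h3 : T * A * (E * (f * g)) ≤ T * A * (1 - E) :=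
      mul_le_mul_of_nonneg_left hEg (mul_nonneg hT hA)
    have h4 : 0 ≤ A * L * c * E * (T - g) := by
      have : 0 ≤ T - g := by linarith
      positivity
    have h5 : 0 ≤ A * E * f * c * (T * g + L * gm) := by positivity
    have h6 : 0 ≤ T * A * (E * (f * g)) * (1 - c) := by
      have : 0 ≤ 1 - c := by linarith
      positivity
    nlinarith
  have := add_nonneg (mul_nonneg hh b1) (mul_nonneg hy b2)
  linarith

theorem seg_deriv (k : ℕ) (T0 m0 f0 h x s : ℝ) (hT : 0 ≤ T0 - s * h) (hm : 0 < m0 + s * x)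
    (hf : 0 ≤ f0 + s * (h - x)) (hh : 0 ≤ h) (hx : x ≤ h) :
    ∃ D, HasDerivAt (fun s => Psi k (T0 - s * h) (m0 + s * x) (f0 + s * (h - x))) D s ∧
      h * RR k (T0 - s * h) (m0 + s * x) (f0 + s * (h - x)) ≤ D := by
  set T := T0 - s * h with hTd
  set m := m0 + s * x with hmd
  set f := f0 + s * (h - x) with hfd
  have dT : HasDerivAt (fun s => T0 - s * h) (-h) s := by
    simpa using ((hasDerivAt_id' s).mul_const h).const_sub T0
  have dm : HasDerivAt (fun s => m0 + s * x) x s := by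
    simpa using ((hasDerivAt_id' s).mul_const x).const_add m0
  have df : HasDerivAt (fun s => f0 + s * (h - x)) (h - x) s := by
    simpa using ((hasDerivAt_id' s).mul_const (h - x)).const_add f0
  have hD : 0 < 4 * m + 2 * T := by positivity
  have dL : HasDerivAt (fun s => lam (T0 - s * h) (m0 + s * x)) (-h * m - (h - x) * T) s := by
    unfold lam
    refine ((dm.fun_mul dT).fun_add ((dT.fun_pow 2).div_const 2)).congr_deriv ?_
    simp only [← hTd, ← hmd]
    push_cast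
    ring
  set gT := ((3 * m + 4 * T) * (4 * m + 2 * T) - 2 * (T * (3 * m + 2 * T))) / (4 * m + 2 * T) ^ 2
    with hgT
  set gm := -2 * T ^ 2 / (4 * m + 2 * T) ^ 2 with hgm
  have dg : HasDerivAt (fun s => gg (T0 - s * h) (m0 + s * x))
      (-h * (gT - gm) - (h - x) * gm) s := by
    unfold gg
    refine ((dT.fun_mul ((dm.const_mul 3).fun_add (dT.const_mul 2))).fun_div
      ((dm.const_mul 4).fun_add (dT.const_mul 2)) hD.ne').congr_deriv ?_
    simp only [← hTd, ← hmd, hgT, hgm]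
    field_simp
    ring
  have dQ := (hasDerivAt_pQ k (lam T m)).comp s dL
  have dA := (hasDerivAt_pa_succ k (lam T m)).comp s dL
  have dE := (df.fun_mul dg).fun_neg.exp
  refine ⟨_, dQ.fun_add (dA.fun_mul dE), ?_⟩
  simp only [Function.comp, ← hTd, ← hmd, ← hfd]
  have hL := lam_nonneg hT hm.le
  have hg0 := gg_nonneg hT hm.le
  refine key_ineq (c := 1 / (k + 1)) (pa_nonneg k hL) (exp_pos _).le hT hm.le hf hh
    (by linarith) (by positivity) ?_ hL ?_ ?_ hg0 ?_ ?_ ?_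
  · rw [div_le_one (by positivity)]; linarith [Nat.cast_nonneg (α := ℝ) k]
  · rw [pa_succ]; ring
  · have h1 := add_one_le_exp (f * gg T m)
    have h2 : exp (-(f * gg T m)) * exp (f * gg T m) = 1 := by rw [← exp_add]; simp
    have h3 := exp_pos (-(f * gg T m))
    nlinarith
  · unfold gg; rw [div_le_iff₀ hD]; nlinarith
  · unfold lam gg; rw [hgT, hgm]; field_simp; ring
  · have : T * gg T m + lam T m * gm = T ^ 2 * (3 * m + 3 / 2 * T) / (4 * m + 2 * T) := by
      unfold lam gg; rw [hgm]; field_simp; ring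
    rw [this]; positivity

theorem seg (k : ℕ) {T m f h x : ℝ} (hT : 0 ≤ T - h) (hm : 0 < m) (hm' : 0 < m + x)
    (hf : 0 ≤ f) (hh : 0 ≤ h) (hx : x ≤ h) :
    ∃ s, 0 ≤ s ∧ s ≤ 1 ∧ Psi k T m f + h * RR k (T - s * h) (m + s * x) (f + s * (h - x))
      ≤ Psi k (T - h) (m + x) (f + (h - x)) := by
  have hd : ∀ s ∈ Set.Icc (0 : ℝ) 1, ∃ D,
      HasDerivAt (fun s => Psi k (T - s * h) (m + s * x) (f + s * (h - x))) D s ∧
      h * RR k (T - s * h) (m + s * x) (f + s * (h - x)) ≤ D := by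
    intro s hs
    refine seg_deriv k T m f h x s (by nlinarith [hs.1, hs.2]) ?_
      (by nlinarith [hs.1, hs.2]) hh hx
    rcases le_total 0 x with h0 | h0
    · nlinarith [hs.1, hs.2]
    · nlinarith [hs.1, hs.2]
  choose! D hD using hd
  obtain ⟨s, hs, e⟩ := exists_hasDerivAt_eq_slope
    (fun s => Psi k (T - s * h) (m + s * x) (f + s * (h - x))) D zero_lt_one
    (fun s hs => (hD s hs).1.continuousAt.continuousWithinAt)
    (fun s hs => (hD s (Set.Ioo_subset_Icc_self hs)).1)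
  refine ⟨s, hs.1.le, hs.2.le, ?_⟩
  have := (hD s (Set.Ioo_subset_Icc_self hs)).2
  simp only [one_mul, zero_mul, sub_zero, add_zero, div_one] at e
  linarith

/-- Uniform continuity on a box away from the singular point. -/
theorem unif (k : ℕ) {δ ω : ℝ} (C : ℝ) (hδ : 0 < δ) (hω : 0 < ω) : ∃ η > 0,
    ∀ T m f T' m' f' : ℝ, T ∈ Set.Icc 0 C → m ∈ Set.Icc δ C → f ∈ Set.Icc 0 C →
      T' ∈ Set.Icc 0 C → m' ∈ Set.Icc δ C → f' ∈ Set.Icc 0 C →
      |T - T'| < η → |m - m'| < η → |f - f'| < η →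
      |Psi k T m f - Psi k T' m' f'| < ω ∧ |RR k T m f - RR k T' m' f'| < ω ∧
        |Yy k T m f - Yy k T' m' f'| < ω := by
  let B : Set (ℝ × ℝ × ℝ) := Set.Icc 0 C ×ˢ Set.Icc δ C ×ˢ Set.Icc 0 C
  have hB : IsCompact B := isCompact_Icc.prod (isCompact_Icc.prod isCompact_Icc)
  have cg : ContinuousOn (fun p : ℝ × ℝ × ℝ => gg p.1 p.2.1) B := by
    unfold gg
    refine ContinuousOn.div (by fun_prop) (by fun_prop) fun p hp => ?_
    have h1 := hp.1.1
    have h2 := hp.2.1.1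
    positivity [h1, hδ.trans_le h2]
  have cL : Continuous (fun p : ℝ × ℝ × ℝ => lam p.1 p.2.1) := by unfold lam; fun_prop
  have cY : ContinuousOn (fun p : ℝ × ℝ × ℝ => Yy k p.1 p.2.1 p.2.2) B := by
    unfold Yy
    exact ((continuous_pa _).comp cL).continuousOn.mul
      ((ContinuousOn.mul (by fun_prop) cg).neg.rexp)
  have cF : ContinuousOn (fun p : ℝ × ℝ × ℝ =>
      (Psi k p.1 p.2.1 p.2.2, RR k p.1 p.2.1 p.2.2, Yy k p.1 p.2.1 p.2.2)) B := by
    refine ContinuousOn.prodMk ?_ (ContinuousOn.prodMk ?_ cY)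
    · exact ((continuous_pQ _).comp cL).continuousOn.add cY
    · exact ContinuousOn.mul (by fun_prop) cY
  obtain ⟨η, hη, H⟩ := Metric.uniformContinuousOn_iff.1 (hB.uniformContinuousOn_of_continuous cF)
    ω hω
  refine ⟨η, hη, fun T m f T' m' f' h1 h2 h3 h4 h5 h6 d1 d2 d3 => ?_⟩
  have := H (T, m, f) ⟨h1, h2, h3⟩ (T', m', f') ⟨h4, h5, h6⟩ (by
    simp only [Prod.dist_eq, Real.dist_eq, max_lt_iff]; exact ⟨d1, d2, d3⟩)
  simpa only [Prod.dist_eq, Real.dist_eq, max_lt_iff] using this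

end Pool.Agent.Lib.SRG
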