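import Pool.Agent.Lib.MP_8954a7_pr.Upper

/-! The star strategy. -/

namespace Pool.Agent.Lib.SRG

open SimpleGraph Finset

variable {V : Type*} [Fintype V] [DecidableEq V] {G : SimpleGraph V} {n : ℕ}

/-- `Build G x S a j`: the rest of `G` can be added to `S` vertex by vertex, `a` times with one
back edge and `j` times with a back edge and a further edge to `x`. -/
inductive Build (G : SimpleGraph V) (x : V) : Finset V → ℕ → ℕ → Prop
  | done : Build G x univ 0 0
  | free {S : Finset V} {a j : ℕ} {v p : V} : v ∉ S → p ∈ S → (∀ w ∈ S, G.Adj v w → w = p) →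
      Build G x (insert v S) a j → Build G x S (a + 1) j
  | event {S : Finset V} {a j : ℕ} {v p : V} : v ∉ S → p ∈ S →
      (∀ w ∈ S, G.Adj v w → w = p ∨ w = x) → Build G x (insert v S) a j → Build G x S a (j + 1)

structure Emb (G : SimpleGraph V) (H : SimpleGraph (Fin n)) (S : Finset V) (φ : V → Fin n) :
    Prop where
  inj : ∀ v ∈ S, ∀ w ∈ S, φ v = φ w → v = w
  adj : ∀ v ∈ S, ∀ w ∈ S, G.Adj v w → H.Adj (φ v) (φ w)

omit [Fintype V] in
theorem Emb.ext {H H' : SimpleGraph (Fin n)} {S : Finset V} {φ : V → Fin n} (E : Emb G H S φ)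
    {v : V} {u : Fin n} (hv : v ∉ S) (hu : u ∉ S.image φ) (hH : H ≤ H')
    (h : ∀ w ∈ S, G.Adj v w → H'.Adj u (φ w)) :
    Emb G H' (insert v S) (Function.update φ v u) := by
  have e : ∀ w ∈ S, Function.update φ v u w = φ w := fun w hw =>
    Function.update_of_ne (ne_of_mem_of_not_mem hw hv) _ _
  constructor
  · intro a ha b hb hab
    rw [mem_insert] at ha hb
    rcases ha with rfl | ha <;> rcases hb with rfl | hb
    · rfl
    · rw [e b hb, Function.update_self] at hab
      exact (hu (mem_image.2 ⟨b, hb, hab.symm⟩)).elim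
    · rw [e a ha, Function.update_self] at hab
      exact (hu (mem_image.2 ⟨a, ha, hab⟩)).elim
    · rw [e a ha, e b hb] at hab
      exact E.inj a ha b hb hab
  · intro a ha b hb hab
    rw [mem_insert] at ha hb
    rcases ha with rfl | ha <;> rcases hb with rfl | hb
    · exact (hab.ne rfl).elim
    · rw [e b hb, Function.update_self]; exact h b hb hab
    · rw [e a ha, Function.update_self]; exact (h a ha hab.symm).symm
    · rw [e a ha, e b hb]; exact hH (E.adj a ha b hb hab)

omit [DecidableEq V] in
theorem Emb.contained {H : SimpleGraph (Fin n)} {φ : V → Fin n} (E : Emb G H univ φ) : G ⊑ H :=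
  ⟨⟨⟨φ, fun h => E.adj _ (mem_univ _) _ (mem_univ _) h⟩,
    fun a b h => E.inj a (mem_univ _) b (mem_univ _) h⟩⟩

omit [Fintype V] in
theorem image_update {S : Finset V} {φ : V → Fin n} {v : V} (hv : v ∉ S) (u : Fin n) :
    (insert v S).image (Function.update φ v u) = insert u (S.image φ) := by
  rw [image_insert, Function.update_self]
  congr 1
  exact image_congr fun w hw => Function.update_of_ne (ne_of_mem_of_not_mem hw hv) _ _

/-- Expected number of hits when the target has size `m` and grows by `ρ` per round. -/
noncomputable def lamd (h ρ s m : ℝ) : ℝ := h ^ 2 * (m * s + ρ * (s * (s - 1) / 2))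

theorem lamd_nonneg (h : ℝ) {ρ m : ℝ} (hρ : 0 ≤ ρ) (s : ℕ) (hm : 0 ≤ m) : 0 ≤ lamd h ρ s m := by
  have : (0 : ℝ) ≤ s * (s - 1) := by
    rcases s with _ | s
    · simp
    · push_cast; nlinarith [Nat.cast_nonneg (α := ℝ) s]
  unfold lamd; positivity

theorem lamd_succ (h ρ s m : ℝ) : lamd h ρ (s + 1) m = lamd h ρ s (m + ρ) + h ^ 2 * m := by
  unfold lamd; ring

theorem lower_ind (x : V) (hn : 0 < n) {h C : ℝ} (hh : 0 < h) (hn2 : n * h ^ 2 = 1) :
    ∀ (r : ℕ) (S : Finset V) (a j s : ℕ) (H : SimpleGraph (Fin n)) (φ : V → Fin n)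
      (L : Finset (Fin n)), r = a + s → Build G x S a j → x ∈ S → Emb G H S φ →
      Disjoint (S.image φ) L → (∀ y ∈ L, H.Adj y (φ x)) →
      h * (L.card + r + Fintype.card V) ≤ C →
      1 - pQ j (lamd h 1 s L.card) - a * (h * C)
        - r * (h ^ 2 * (Fintype.card V + 3 * C ^ 2)) ≤ val G r H := by
  have hn' : (0 : ℝ) < n := by positivity
  intro r
  induction r with
  | zero =>
    intro S a j s H φ L hr hB hx E _ _ _
    obtain rfl : a = 0 := by omega
    obtain rfl : s = 0 := by omega
    cases hB with
    | done => rw [val_of_contains G hn _ _ E.contained]; simp [pQ_zero]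
    | event => simpa [lamd, pQ_at_zero] using val_nonneg G 0 H
  | succ r ih =>
    intro S a j s H φ L hr hB hx E hd hL hC
    have hm : (0 : ℝ) ≤ L.card := Nat.cast_nonneg _
    have hr0 : (0 : ℝ) ≤ r := Nat.cast_nonneg _
    have hV : (0 : ℝ) ≤ Fintype.card V := Nat.cast_nonneg _
    have hC0 : 0 ≤ C := le_trans (by positivity) hC
    have hS : ((S.image φ).card : ℝ) ≤ Fintype.card V := by
      exact_mod_cast card_image_le.trans (card_le_univ S)
    have hU : ((S.image φ ∪ L).card : ℝ) = (S.image φ).card + L.card := by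
      exact_mod_cast card_union_of_disjoint hd
    set e := h ^ 2 * (Fintype.card V + 3 * C ^ 2) with he
    have he0 : 0 ≤ e := by positivity
    push_cast at hC ⊢
    cases hB with
    | done =>
      rw [val_of_contains G hn _ _ E.contained, pQ_zero]
      have : 0 ≤ (r + 1) * e := by positivity
      simpa using this
    | @free _ a _ v p hv hp h1 hB =>
      set Φ := 1 - pQ j (lamd h 1 s L.card) - a * (h * C) - r * e with hΦ
      have hΦ1 : Φ ≤ 1 := by
        have := pQ_nonneg j (lamd_nonneg h zero_le_one s hm)
        have : 0 ≤ a * (h * C) := by positivity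
        have : 0 ≤ r * e := by positivity
        linarith
      refine le_trans ?_ (le_val_succ G (fun u => if u ∈ S.image φ ∪ L then Φ - 1
        else if u ∈ S.image φ ∪ L then 0 else Φ) fun u => ?_)
      · rw [sum_three _ _ subset_rfl, le_div_iff₀ hn']
        have a1 : ((S.image φ ∪ L).card : ℝ) ≤ n * (h * C) := by
          have : (n : ℝ) * h * (h * (L.card + (r + 1) + Fintype.card V)) ≤ n * h * C :=
            mul_le_mul_of_nonneg_left hC (by positivity)
          nlinarith
        push_cast
        nlinarith [mul_nonneg hn'.le he0]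
      · by_cases hu : u ∈ S.image φ ∪ L
        · exact ⟨u, by rw [if_pos hu]; linarith [val_nonneg G r (H ⊔ edge u u)]⟩
        rw [if_neg hu, if_neg hu]
        rw [mem_union, not_or] at hu
        have hne : u ≠ φ p := fun e => hu.1 (mem_image.2 ⟨p, hp, e.symm⟩)
        refine ⟨φ p, ih (insert v S) a j s _ (Function.update φ v u) L (by omega) hB
          (mem_insert_of_mem hx) (E.ext hv hu.1 le_sup_left fun w hw hw' => ?_) ?_ ?_ (by nlinarith)⟩
        · rw [h1 w hw hw']; exact Or.inr ((edge_adj ..).2 ⟨Or.inl ⟨rfl, rfl⟩, hne⟩)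
        · rw [image_update hv, disjoint_insert_left]; exact ⟨hu.2, hd⟩
        · rw [Function.update_of_ne (ne_of_mem_of_not_mem hx hv)]
          exact fun y hy => Or.inl (hL y hy)
    | @event _ _ j v p hv hp h1 hB' =>
      have hB : Build G x S a (j + 1) := Build.event hv hp h1 hB'
      rcases s with _ | s
      · have := val_nonneg G (r + 1) H
        have : 0 ≤ a * (h * C) := by positivity
        have : 0 ≤ (r + 1) * e := by positivity
        simp only [lamd, Nat.cast_zero, mul_zero, zero_mul, zero_div, add_zero, pQ_at_zero]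
        linarith
      set l := lamd h 1 s (L.card + 1) with hl
      have hl0 : 0 ≤ l := lamd_nonneg h zero_le_one s (by positivity)
      have hs : h * s ≤ C := by
        have : (s : ℝ) ≤ r := by exact_mod_cast (by omega : s ≤ r)
        nlinarith
      have hs0 : (0 : ℝ) ≤ s := Nat.cast_nonneg _
      have hmC : h * L.card ≤ C := by nlinarith
      set Φ := 1 - pQ (j + 1) l - a * (h * C) - r * e with hΦ
      have hΦ1 : Φ ≤ 1 := by
        have := pQ_nonneg (j + 1) hl0
        have : 0 ≤ a * (h * C) := by positivity
        have : 0 ≤ r * e := by positivity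
        linarith
      refine le_trans ?_ (le_val_succ G (fun u => if u ∈ S.image φ then Φ - 1
        else if u ∈ S.image φ ∪ L then Φ + pa j l - 2 * (h * C) else Φ) fun u => ?_)
      · rw [sum_three _ _ subset_union_left, le_div_iff₀ hn', hU]
        push_cast
        rw [lamd_succ, ← hl]
        have a1 := (abs_le.1 (pQ_taylor j hl0 (p := h ^ 2 * L.card) (by positivity))).1
        have a2 : (h * L.card) ^ 2 ≤ C ^ 2 := pow_le_pow_left₀ (by positivity) hmC 2
        have a3 : (h * L.card) * C ≤ C * C := mul_le_mul_of_nonneg_right hmC hC0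
        have a4 : e * n = Fintype.card V + 3 * C ^ 2 := by
          rw [he]; linear_combination (Fintype.card V + 3 * C ^ 2) * hn2
        have a5 : (h ^ 2 * L.card * pa j l) * n = L.card * pa j l := by
          linear_combination (L.card * pa j l) * hn2
        have a6 : (h ^ 2 * L.card) ^ 2 * n = (h * L.card) ^ 2 := by
          linear_combination (h * L.card) ^ 2 * hn2
        have a7 := mul_le_mul_of_nonneg_right a1 hn'.le
        nlinarith
      · by_cases hu : u ∈ S.image φ
        · exact ⟨u, by rw [if_pos hu]; linarith [val_nonneg G r (H ⊔ edge u u)]⟩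
        rw [if_neg hu]
        by_cases hu' : u ∈ L
        · rw [if_pos (mem_union_right _ hu')]
          have hne : u ≠ φ p := fun e => hu (mem_image.2 ⟨p, hp, e.symm⟩)
          have hc : ((L.erase u).card : ℝ) = L.card - 1 := by
            rw [card_erase_of_mem hu', Nat.cast_pred (card_pos.2 ⟨u, hu'⟩)]
          refine ⟨φ p, le_trans ?_ (ih (insert v S) a j s _ (Function.update φ v u) (L.erase u)
            (by omega) hB' (mem_insert_of_mem hx) (E.ext hv hu le_sup_left fun w hw hw' => ?_)
            ?_ ?_ (by rw [hc]; nlinarith))⟩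
          · have b0 := lamd_nonneg h zero_le_one s (Nat.cast_nonneg (L.erase u).card)
            have b1 := (abs_le.1 (pQ_lip j b0 hl0)).2
            have b2 : lamd h 1 s (L.erase u).card - l = -(2 * (h * (h * s))) := by
              rw [hc, hl]; unfold lamd; ring
            rw [b2, abs_neg, abs_of_nonneg (by positivity)] at b1
            have b3 : h * (h * s) ≤ h * C := mul_le_mul_of_nonneg_left hs hh.le
            rw [hΦ, pQ_succ]
            linarith
          · rcases h1 w hw hw' with rfl | rfl
            · exact Or.inr ((edge_adj ..).2 ⟨Or.inl ⟨rfl, rfl⟩, hne⟩)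
            · exact Or.inl (hL u hu')
          · rw [image_update hv, disjoint_insert_left]
            exact ⟨notMem_erase u L, hd.mono_right (erase_subset u L)⟩
          · rw [Function.update_of_ne (ne_of_mem_of_not_mem hx hv)]
            exact fun y hy => Or.inl (hL y (mem_of_mem_erase hy))
        · rw [if_neg (by rw [mem_union, not_or]; exact ⟨hu, hu'⟩)]
          have hne : u ≠ φ x := fun e => hu (mem_image.2 ⟨x, hx, e.symm⟩)
          have hc : ((insert u L).card : ℝ) = L.card + 1 := by
            rw [card_insert_of_notMem hu']; push_cast; rfl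
          have := ih S a (j + 1) s (H ⊔ edge u (φ x)) φ (insert u L) (by omega) hB hx
            ⟨E.inj, fun a ha b hb h => Or.inl (E.adj a ha b hb h)⟩
            (by rw [disjoint_insert_right]; exact ⟨hu, hd⟩) (fun y hy => by
              rcases mem_insert.1 hy with rfl | hy
              · exact Or.inr ((edge_adj ..).2 ⟨Or.inl ⟨rfl, rfl⟩, hne⟩)
              · exact Or.inl (hL y hy)) (by rw [hc]; linarith)
          rw [hc] at this
          exact ⟨φ x, this⟩

end Pool.Agent.Lib.SRG
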