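import Mathlib

/-! Poisson point and tail probabilities as functions of the mean. -/

namespace Pool.Agent.Lib.SRG

open Real Finset

/-- `P(Poisson(x) = j)`. -/
noncomputable def pa (j : ℕ) (x : ℝ) : ℝ := exp (-x) * (x ^ j / j.factorial)

/-- `P(Poisson(x) < j)`. -/
noncomputable def pQ (j : ℕ) (x : ℝ) : ℝ := exp (-x) * ∑ i ∈ range j, x ^ i / i.factorial

theorem pQ_zero (x : ℝ) : pQ 0 x = 0 := by simp [pQ]

theorem pQ_succ (j : ℕ) (x : ℝ) : pQ (j + 1) x = pQ j x + pa j x := by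
  simp [pQ, pa, sum_range_succ, mul_add]

theorem pa_nonneg (j : ℕ) {x : ℝ} (hx : 0 ≤ x) : 0 ≤ pa j x := by
  unfold pa; positivity

theorem pQ_nonneg (j : ℕ) {x : ℝ} (hx : 0 ≤ x) : 0 ≤ pQ j x := by
  unfold pQ; positivity

theorem pQ_le_one (j : ℕ) {x : ℝ} (hx : 0 ≤ x) : pQ j x ≤ 1 := by
  unfold pQ
  have h := Real.sum_le_exp_of_nonneg hx j
  calc _ ≤ exp (-x) * exp x := mul_le_mul_of_nonneg_left h (exp_pos _).le
    _ = 1 := by rw [← exp_add]; simp

theorem pa_le_one (j : ℕ) {x : ℝ} (hx : 0 ≤ x) : pa j x ≤ 1 := by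
  have := pQ_le_one (j + 1) hx
  have := pQ_nonneg j hx
  rw [pQ_succ] at *
  linarith

theorem pQ_mono {i j : ℕ} (h : i ≤ j) {x : ℝ} (hx : 0 ≤ x) : pQ i x ≤ pQ j x := by
  induction h with
  | refl => exact le_rfl
  | step _ ih => rw [pQ_succ]; linarith [pa_nonneg ‹ℕ› hx]

theorem pQ_at_zero (j : ℕ) : pQ (j + 1) 0 = 1 := by
  induction j with
  | zero => simp [pQ]
  | succ j ih => rw [pQ_succ, ih]; simp [pa]

theorem pa_succ (j : ℕ) (x : ℝ) : pa (j + 1) x = pa j x * x / (j + 1) := by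
  unfold pa
  rw [Nat.factorial_succ]
  push_cast
  field_simp
  ring

theorem hasDerivAt_pa_zero (x : ℝ) : HasDerivAt (pa 0) (-pa 0 x) x := by
  have h := (hasDerivAt_neg x).exp
  have e : pa 0 = fun x => exp (-x) := by funext y; simp [pa]
  rw [e]
  simpa using h

theorem hasDerivAt_pa_succ (j : ℕ) (x : ℝ) :
    HasDerivAt (pa (j + 1)) (pa j x - pa (j + 1) x) x := by
  have h1 := (hasDerivAt_neg x).exp
  have h2 := (hasDerivAt_pow (j + 1) x).div_const ((j + 1).factorial : ℝ)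
  have h := h1.fun_mul h2
  refine HasDerivAt.congr_deriv (f := pa (j + 1)) h ?_
  unfold pa
  rw [Nat.factorial_succ]
  push_cast
  field_simp
  ring

theorem hasDerivAt_pQ (j : ℕ) (x : ℝ) : HasDerivAt (pQ (j + 1)) (-pa j x) x := by
  induction j with
  | zero =>
    have e : pQ (0 + 1) = pa 0 := by funext y; simp [pQ_succ, pQ_zero]
    rw [e]; exact hasDerivAt_pa_zero x
  | succ j ih =>
    have e : pQ (j + 1 + 1) = fun y => pQ (j + 1) y + pa (j + 1) y := by
      funext y; rw [pQ_succ]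
    rw [e]
    refine (ih.fun_add (hasDerivAt_pa_succ j x)).congr_deriv ?_
    ring

theorem lip_of_deriv {F F' : ℝ → ℝ} (hF : ∀ x, HasDerivAt F (F' x) x)
    (hb : ∀ x, 0 ≤ x → |F' x| ≤ 1) {x y : ℝ} (hx : 0 ≤ x) (hy : 0 ≤ y) :
    |F x - F y| ≤ |x - y| := by
  have := (convex_Ici (0 : ℝ)).norm_image_sub_le_of_norm_hasDerivWithin_le (f := F) (f' := F')
    (C := 1) (fun z _ => (hF z).hasDerivWithinAt) (fun z hz => hb z hz) hy hx
  simpa using this

theorem pa_lip (j : ℕ) {x y : ℝ} (hx : 0 ≤ x) (hy : 0 ≤ y) : |pa j x - pa j y| ≤ |x - y| := by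
  cases j with
  | zero =>
    refine lip_of_deriv hasDerivAt_pa_zero (fun z hz => ?_) hx hy
    rw [abs_neg, abs_of_nonneg (pa_nonneg _ hz)]; exact pa_le_one _ hz
  | succ j =>
    refine lip_of_deriv (hasDerivAt_pa_succ j) (fun z hz => ?_) hx hy
    have := pa_nonneg j hz
    have := pa_le_one j hz
    have := pa_nonneg (j + 1) hz
    have := pa_le_one (j + 1) hz
    rw [abs_le]; constructor <;> linarith

theorem pQ_lip (j : ℕ) {x y : ℝ} (hx : 0 ≤ x) (hy : 0 ≤ y) : |pQ j x - pQ j y| ≤ |x - y| := by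
  cases j with
  | zero => simp [pQ_zero]
  | succ j =>
    refine lip_of_deriv (hasDerivAt_pQ j) (fun z hz => ?_) hx hy
    rw [abs_neg, abs_of_nonneg (pa_nonneg _ hz)]; exact pa_le_one _ hz

theorem pQ_taylor (j : ℕ) {x p : ℝ} (hx : 0 ≤ x) (hp : 0 ≤ p) :
    |pQ (j + 1) (x + p) - pQ (j + 1) x + p * pa j x| ≤ p ^ 2 := by
  have := (convex_Icc x (x + p)).norm_image_sub_le_of_norm_hasDerivWithin_le
    (f := fun t => pQ (j + 1) t + t * pa j x) (f' := fun t => -pa j t + pa j x) (C := p)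
    (fun z _ => by
      have := ((hasDerivAt_pQ j z).fun_add ((hasDerivAt_id' z).mul_const (pa j x))).hasDerivWithinAt
        (s := Set.Icc x (x + p))
      simpa using this)
    (fun z hz => by
      have h := pa_lip j hx (hx.trans hz.1)
      have : |x - z| ≤ p := by rw [abs_le]; constructor <;> linarith [hz.1, hz.2]
      rw [Real.norm_eq_abs, show -pa j z + pa j x = pa j x - pa j z by ring]
      linarith)
    (Set.left_mem_Icc.2 (by linarith)) (Set.right_mem_Icc.2 (by linarith))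
  simp only [Real.norm_eq_abs, add_sub_cancel_left, abs_of_nonneg hp] at this
  calc _ = |pQ (j + 1) (x + p) + (x + p) * pa j x - (pQ (j + 1) x + x * pa j x)| := by
        congr 1; ring
    _ ≤ p * p := this
    _ = p ^ 2 := by ring

theorem pQ_anti (j : ℕ) {x y : ℝ} (hx : 0 ≤ x) (hxy : x ≤ y) : pQ j y ≤ pQ j x := by
  cases j with
  | zero => simp [pQ_zero]
  | succ j =>
    have : AntitoneOn (pQ (j + 1)) (Set.Ici 0) := by
      refine antitoneOn_of_deriv_nonpos (convex_Ici 0)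
        (fun z _ => (hasDerivAt_pQ j z).continuousAt.continuousWithinAt)
        (fun z _ => (hasDerivAt_pQ j z).differentiableAt.differentiableWithinAt) (fun z hz => ?_)
      rw [(hasDerivAt_pQ j z).deriv]
      have : 0 ≤ z := by
        have := interior_subset hz
        exact this
      linarith [pa_nonneg j this]
    exact this hx (hx.trans hxy) hxy

theorem continuous_pQ (j : ℕ) : Continuous (pQ j) := by
  unfold pQ; fun_prop

theorem continuous_pa (j : ℕ) : Continuous (pa j) := by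
  unfold pa; fun_prop

end Pool.Agent.Lib.SRG
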