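import Pool.Agent.Lib.MP_8954a7_pr.Grow

/-! Vertices whose arrival closes a cycle, and the upper bound for graphs with a cycle. -/

namespace Pool.Agent.Lib.SRG

open SimpleGraph Finset

section
variable {α : Type*} {H : SimpleGraph α}

/-- `u` is the end of a path on `k` vertices. -/
def Pth (H : SimpleGraph α) (k : ℕ) (u : α) : Prop :=
  ∃ g : ℕ → α, g 0 = u ∧ (∀ i < k, ∀ j < k, g i = g j → i = j) ∧
    ∀ i, i + 1 < k → H.Adj (g i) (g (i + 1))

theorem Pth.mono {H' : SimpleGraph α} {k : ℕ} {u : α} (h : Pth H k u) (hH : H ≤ H') :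
    Pth H' k u := by
  obtain ⟨g, h1, h2, h3⟩ := h
  exact ⟨g, h1, h2, fun i hi => hH (h3 i hi)⟩

theorem pth_aux {m : ℕ} {u v : α} (F : Fin (m + 3) → α) (hF : Function.Injective F)
    (h : ∀ j, (H ⊔ edge u v).Adj (F j) (F (j + 1))) (h0 : F 0 = u) (h1 : F (-1) = v) :
    Pth H (m + 3) u := by
  refine ⟨fun i => if hi : i < m + 3 then F ⟨i, hi⟩ else u, by simpa using h0,
    fun i hi j hj e => ?_, fun i hi => ?_⟩
  · simp only [dif_pos hi, dif_pos hj] at e
    exact congrArg Fin.val (hF e)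
  · have e : (⟨i, by omega⟩ + 1 : Fin (m + 3)) = ⟨i + 1, hi⟩ :=
      Fin.ext (Fin.val_add_one_of_lt' hi)
    have := h ⟨i, by omega⟩
    rw [e] at this
    simp only [dif_pos hi, dif_pos (show i < m + 3 by omega)]
    refine this.resolve_right fun h2 => ?_
    rcases ((edge_adj ..).1 h2).1 with ⟨a, b⟩ | ⟨-, b⟩
    · have a1 := congrArg Fin.val (hF (a.trans h0.symm))
      have b1 := congrArg Fin.val (hF (b.trans h1.symm))
      simp only [Fin.coe_neg_one, Fin.val_zero] at a1 b1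
      omega
    · simpa using congrArg Fin.val (hF (b.trans h0.symm))

theorem pth_of_close {m : ℕ} {u v : α} (h : ¬ cycleGraph (m + 3) ⊑ H)
    (h' : cycleGraph (m + 3) ⊑ H ⊔ edge u v) : Pth H (m + 3) u := by
  obtain ⟨f⟩ := h'
  have key : ∀ a b, (cycleGraph (m + 3)).Adj a b → f a = u → f b = v → Pth H (m + 3) u := by
    intro a b hab ha hb
    rcases cycleGraph_adj.1 hab with e | e
    · refine pth_aux (v := v) (fun j => f (a + j)) (f.injective.comp (add_right_injective a))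
        (fun j => f.toHom.map_rel (cycleGraph_adj.2 (Or.inr (by abel)))) (by simpa using ha) ?_
      exact (congrArg f (by rw [← e]; abel)).trans hb
    · refine pth_aux (v := v) (fun j => f (a - j)) (f.injective.comp sub_right_injective)
        (fun j => f.toHom.map_rel (cycleGraph_adj.2 (Or.inl (by abel)))) (by simpa using ha) ?_
      exact (congrArg f (by rw [← e]; abel)).trans hb
  by_contra hn
  refine h ⟨⟨⟨f, fun {a b} hab => (f.toHom.map_rel hab).resolve_right fun h2 => hn ?_⟩,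
    f.injective⟩⟩
  rcases ((edge_adj ..).1 h2).1 with ⟨a1, b1⟩ | ⟨a1, b1⟩
  · exact key a b hab a1 b1
  · exact key b a hab.symm b1 a1

variable [DecidableEq α]

omit [DecidableEq α] in
theorem E2_deg {S : Finset α}
    (h : ∀ y ∈ S, ∃ a ∈ S, ∃ b ∈ S, a ≠ b ∧ H.Adj y a ∧ H.Adj y b) : 2 * S.card ≤ E2 H S := by
  classical
  unfold E2
  rw [card_eq_sum_ones ((S ×ˢ S).filter _), sum_filter, sum_product, mul_comm, ← smul_eq_mul]
  refine card_nsmul_le_sum _ _ _ fun y hy => ?_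
  obtain ⟨a, ha, b, hb, hab, h1, h2⟩ := h y hy
  rw [← sum_filter, ← card_eq_sum_ones]
  exact one_lt_card.2 ⟨a, mem_filter.2 ⟨ha, h1⟩, b, mem_filter.2 ⟨hb, h2⟩, hab⟩

theorem exists_not_pth {A : Finset α} {m : ℕ} (hc : ∀ x ∈ A, ∀ y, H.Adj x y → y ∈ A)
    (ht : ∀ S ⊆ A, S.Nonempty → E2 H S + 2 ≤ 2 * S.card) (hne : A.Nonempty)
    (hA : A.card ≤ 2 * m + 3) : ∃ x ∈ A, ¬ Pth H (m + 3) x := by
  classical
  by_contra! hn
  choose! p p0 p1 p2 using hn
  have hin : ∀ u ∈ A, ∀ i < m + 3, p u i ∈ A := fun u hu i => by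
    induction i with
    | zero => intro; rwa [p0 u hu]
    | succ i ih => exact fun hi => hc _ (ih (by omega)) _ (p2 u hu i hi)
  have hN : ∀ u ∈ A, H.Adj u (p u 1) := fun u hu => by
    simpa [p0 u hu] using p2 u hu 0 (by omega)
  obtain ⟨u, hu, huu⟩ : ∃ u ∈ A, p (p u 1) 1 = u := by
    by_contra! h
    have d : Disjoint (A.image fun u => (u, p u 1)) (A.image fun u => (p u 1, u)) := by
      rw [Finset.disjoint_left]
      intro z h1 h2
      obtain ⟨a, -, rfl⟩ := mem_image.1 h1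
      obtain ⟨b, hb, e⟩ := mem_image.1 h2
      rw [Prod.mk.injEq] at e
      exact h b hb (by rw [e.1, e.2])
    have h1 := card_le_card (s := (A.image fun u => (u, p u 1)) ∪ (A.image fun u => (p u 1, u)))
      (t := (A ×ˢ A).filter fun z => H.Adj z.1 z.2) fun z hz => by
        rcases mem_union.1 hz with h1 | h1 <;> obtain ⟨a, ha, rfl⟩ := mem_image.1 h1
        · exact mem_filter.2 ⟨mem_product.2 ⟨ha, hin a ha 1 (by omega)⟩, hN a ha⟩
        · exact mem_filter.2 ⟨mem_product.2 ⟨hin a ha 1 (by omega), ha⟩, (hN a ha).symm⟩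
    rw [card_union_of_disjoint d, card_image_of_injective _ fun a b e => (Prod.mk.inj e).1,
      card_image_of_injective _ fun a b e => (Prod.mk.inj e).2] at h1
    have := ht A subset_rfl hne
    unfold E2 at this
    omega
  have hw := hin u hu 1 (by omega)
  have g0 := p0 u hu
  have g1 := p1 u hu
  have g2 := p2 u hu
  have g3 := hin u hu
  have f0 := p0 _ hw
  have f1 := p1 _ hw
  have f2 := p2 _ hw
  have f3 := hin _ hw
  generalize p (p u 1) = f at *
  generalize p u = g at *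
  have hex : ∃ i, (1 ≤ i ∧ i < m + 3) ∧ ∃ j, (1 ≤ j ∧ j < m + 3) ∧ g i = f j := by
    by_contra! h
    have d : Disjoint ((Ico 1 (m + 3)).image g) ((Ico 1 (m + 3)).image f) := by
      rw [Finset.disjoint_left]
      intro z h1 h2
      obtain ⟨a, ha, rfl⟩ := mem_image.1 h1
      obtain ⟨b, hb, e⟩ := mem_image.1 h2
      exact h a (mem_Ico.1 ha) b (mem_Ico.1 hb) e.symm
    have h1 := card_le_card (s := (Ico 1 (m + 3)).image g ∪ (Ico 1 (m + 3)).image f) (t := A)
      fun z hz => by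
        rcases mem_union.1 hz with h1 | h1 <;> obtain ⟨a, ha, rfl⟩ := mem_image.1 h1
        · exact g3 a (mem_Ico.1 ha).2
        · exact f3 a (mem_Ico.1 ha).2
    rw [card_union_of_disjoint d,
      card_image_of_injOn fun a ha b hb e => g1 a (mem_Ico.1 ha).2 b (mem_Ico.1 hb).2 e,
      card_image_of_injOn fun a ha b hb e => f1 a (mem_Ico.1 ha).2 b (mem_Ico.1 hb).2 e,
      Nat.card_Ico] at h1
    omega
  obtain ⟨i, ⟨⟨i1, i2⟩, j, ⟨j1, j2⟩, e⟩, hmin⟩ :
      ∃ i, ((1 ≤ i ∧ i < m + 3) ∧ ∃ j, (1 ≤ j ∧ j < m + 3) ∧ g i = f j) ∧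
        ∀ i' < i, ¬ ((1 ≤ i' ∧ i' < m + 3) ∧ ∃ j, (1 ≤ j ∧ j < m + 3) ∧ g i' = f j) :=
    ⟨_, Nat.find_spec hex, fun i' h => Nat.find_min hex h⟩
  have i3 : i ≠ 1 := by
    rintro rfl
    have := f1 0 (by omega) j j2 (f0.trans e)
    omega
  have j3 : j ≠ 1 := by
    rintro rfl
    have := g1 0 (by omega) i i2 (g0.trans (e.trans huu).symm)
    omega
  obtain ⟨i, rfl⟩ : ∃ l, i = l + 2 := ⟨i - 2, by omega⟩
  obtain ⟨j, rfl⟩ : ∃ l, j = l + 2 := ⟨j - 2, by omega⟩
  set S := (range (i + 3)).image g ∪ (range (j + 3)).image f with hS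
  have mg : ∀ a < i + 3, g a ∈ S := fun a ha =>
    mem_union_left _ (mem_image_of_mem _ (mem_range.2 ha))
  have mf : ∀ a < j + 3, f a ∈ S := fun a ha =>
    mem_union_right _ (mem_image_of_mem _ (mem_range.2 ha))
  have d1 : ∀ a < i + 1, ∃ x ∈ S, ∃ y ∈ S, x ≠ y ∧ H.Adj (g (a + 1)) x ∧ H.Adj (g (a + 1)) y :=
    fun a ha => ⟨_, mg a (by omega), _, mg (a + 2) (by omega),
      fun h => by have := g1 _ (by omega) _ (by omega) h; omega,
      (g2 a (by omega)).symm, g2 (a + 1) (by omega)⟩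
  have d2 : ∀ a < j + 1, ∃ x ∈ S, ∃ y ∈ S, x ≠ y ∧ H.Adj (f (a + 1)) x ∧ H.Adj (f (a + 1)) y :=
    fun a ha => ⟨_, mf a (by omega), _, mf (a + 2) (by omega),
      fun h => by have := f1 _ (by omega) _ (by omega) h; omega,
      (f2 a (by omega)).symm, f2 (a + 1) (by omega)⟩
  have d3 : ∃ x ∈ S, ∃ y ∈ S, x ≠ y ∧ H.Adj (g (i + 2)) x ∧ H.Adj (g (i + 2)) y :=
    ⟨_, mg (i + 1) (by omega), _, mf (j + 1) (by omega),
      fun h => hmin (i + 1) (by omega) ⟨by omega, j + 1, by omega, h⟩,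
      (g2 (i + 1) (by omega)).symm, e ▸ (f2 (j + 1) (by omega)).symm⟩
  have h1 := E2_deg (H := H) (S := S) fun y hy => by
    rcases mem_union.1 hy with h1 | h1 <;> obtain ⟨a, ha, rfl⟩ := mem_image.1 h1 <;>
      rw [mem_range] at ha
    · rcases a with _ | a
      · rw [g0, ← huu]; exact d2 0 (by omega)
      · by_cases h : a = i + 1
        · rw [h]; exact d3
        · exact d1 a (by omega)
    · rcases a with _ | a
      · rw [f0]; exact d1 0 (by omega)
      · by_cases h : a = j + 1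
        · rw [h, ← e]; exact d3
        · exact d2 a (by omega)
  have h2 := ht S (fun z hz => by
    rcases mem_union.1 hz with h1 | h1 <;> obtain ⟨a, ha, rfl⟩ := mem_image.1 h1 <;>
      rw [mem_range] at ha
    · exact g3 a (by omega)
    · exact f3 a (by omega)) ⟨_, mg 0 (by omega)⟩
  omega

end

variable {n : ℕ}

open Classical in
theorem Dec.good_card {H : SimpleGraph (Fin n)} {τ : ℕ} (D : Dec H τ) (m : ℕ) :
    (2 * m + 3) * (univ.filter (Pth H (m + 3))).card ≤ (2 * m + 4) * τ := by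
  set X := univ.filter (Pth H (m + 3)) with hX
  have h1 := Nat.mul_le_mul_left (2 * m + 3) (D.count X)
  have h2 : ∑ A ∈ D.T, (2 * m + 3) * (X ∩ A).card ≤ ∑ A ∈ D.T, (2 * m + 4) * (A.card - 1) := by
    refine sum_le_sum fun A hA => ?_
    by_cases h : A.card ≤ 2 * m + 3
    · obtain ⟨x, hx, hx'⟩ := exists_not_pth (D.closed A hA) (D.tree A hA) (D.ne A hA) h
      have : (X ∩ A).card < A.card := card_lt_card ⟨inter_subset_right, fun h =>
        hx' (mem_filter.1 (mem_inter.1 (h hx)).1).2⟩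
      exact Nat.mul_le_mul (by omega) (by omega)
    · have := card_le_card (inter_subset_right (s₁ := X) (s₂ := A))
      obtain ⟨c, hc⟩ : ∃ c, A.card = c + 1 := ⟨A.card - 1, by omega⟩
      rw [hc, Nat.add_sub_cancel]
      nlinarith
  rw [← mul_sum, ← mul_sum] at h2
  have h3 := Nat.mul_le_mul_left (2 * m + 4) D.budget
  nlinarith

theorem pa_zero (x : ℝ) : pa 0 x = pQ 1 x := by rw [pQ_succ, pQ_zero, zero_add]

theorem upper_cyc_ind {V : Type*} {G : SimpleGraph V} {m : ℕ} (hG : cycleGraph (m + 3) ⊑ G)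
    (hn : 0 < n) {h ρ C : ℝ} (hh : 0 < h) (hn2 : n * h ^ 2 = 1)
    (hρ : ρ * (2 * m + 3) = 2 * m + 4) (hρ0 : 0 ≤ ρ) :
    ∀ (r τ : ℕ) (H : SimpleGraph (Fin n)) (_ : Dec H τ), ¬ cycleGraph (m + 3) ⊑ H →
      h * (ρ * (τ + r)) ≤ C → val G r H ≤ 1 - pQ 1 (lamd h ρ r (ρ * τ)) + r * (h ^ 2 * C ^ 2) := by
  classical
  have hn' : (0 : ℝ) < n := by positivity
  intro r
  induction r with
  | zero =>
    intro τ H _ hH _
    have : ¬ G ⊑ H := fun h => hH (hG.trans h)
    simp [val, this, lamd, pQ_at_zero]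
  | succ r ih =>
    intro τ H D hH hC
    push_cast at hC ⊢
    set X := univ.filter (Pth H (m + 3)) with hX
    set l := lamd h ρ r (ρ * τ + ρ) with hl
    have hl0 : 0 ≤ l := lamd_nonneg h hρ0 r (by positivity)
    have e0 : 0 ≤ r * (h ^ 2 * C ^ 2) := by positivity
    refine (val_succ_le G (fun u => if u ∈ X then 1 + r * (h ^ 2 * C ^ 2) else if u ∈ X then 0
      else 1 - pQ 1 l + r * (h ^ 2 * C ^ 2)) fun u v => ?_).trans ?_
    · by_cases hu : u ∈ X
      · rw [if_pos hu]; linarith [val_le_one G r (H ⊔ edge u v)]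
      · rw [if_neg hu, if_neg hu]
        obtain ⟨D', -⟩ := D.step u v
        have := ih (τ + 1) _ D' (fun h' => hu (mem_filter.2 ⟨mem_univ _, pth_of_close hH h'⟩))
          (by push_cast; linarith)
        push_cast at this
        rwa [mul_add, mul_one] at this
    · rw [sum_three _ _ subset_rfl, div_le_iff₀ hn', lamd_succ, ← hl]
      have a0 : (X.card : ℝ) ≤ ρ * τ := by
        have : ((2 * m + 3) * X.card : ℝ) ≤ (2 * m + 4) * τ := by exact_mod_cast D.good_card m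
        rw [← hρ] at this
        exact le_of_mul_le_mul_left (by linarith) (show (0 : ℝ) < 2 * m + 3 by positivity)
      have a1 := (abs_le.1 (pQ_taylor 0 hl0 (p := h ^ 2 * (ρ * τ)) (by positivity))).2
      rw [pa_zero, zero_add] at a1
      have a2 : (h * (ρ * τ)) ^ 2 ≤ C ^ 2 := pow_le_pow_left₀ (by positivity)
        (by nlinarith [mul_nonneg hh.le (mul_nonneg hρ0 (Nat.cast_nonneg (α := ℝ) r)),
          mul_nonneg hh.le hρ0]) 2
      have a3 : h ^ 2 * C ^ 2 * n = C ^ 2 := by linear_combination C ^ 2 * hn2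
      have a5 : h ^ 2 * (ρ * τ) * pQ 1 l * n = ρ * τ * pQ 1 l := by
        linear_combination (ρ * τ * pQ 1 l) * hn2
      have a6 : (h ^ 2 * (ρ * τ)) ^ 2 * n = (h * (ρ * τ)) ^ 2 := by
        linear_combination (h * (ρ * τ)) ^ 2 * hn2
      have a7 := mul_le_mul_of_nonneg_right a1 hn'.le
      have a8 := mul_le_mul_of_nonneg_right a0 (pQ_nonneg 1 hl0)
      nlinarith

theorem upper_cyc {V : Type*} {G : SimpleGraph V} {m : ℕ} (hG : cycleGraph (m + 3) ⊑ G)
    {ρ : ℝ} (hρ : ρ * (2 * m + 3) = 2 * m + 4) (hρ0 : 0 < ρ) {c ε : ℝ} (hc : 0 < c) (hε : 0 < ε) :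
    ∀ᶠ n : ℕ in Filter.atTop, optProb G n ⌊c * √(n : ℝ)⌋₊ ≤ 1 - pQ 1 (ρ * c ^ 2 / 2) + ε := by
  filter_upwards [small (show 0 < ε / (c * (ρ * c) ^ 2) by positivity)] with n h1
  obtain ⟨s1, s2, s3, -⟩ := scale hc.le h1.1
  set h := 1 / √(n : ℝ)
  set t := ⌊c * √(n : ℝ)⌋₊
  have ht : (0 : ℝ) ≤ h * t := by positivity
  have := upper_cyc_ind hG h1.1 s1 s2 hρ hρ0.le (C := ρ * c) t 0 ⊥ (Dec.init n)
    (fun ⟨f⟩ => f.toHom.map_rel (cycleGraph_adj.2 (Or.inl (sub_zero 1))))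
    (by push_cast; nlinarith)
  rw [optProb_eq]
  refine this.trans ?_
  simp only [Nat.cast_zero, mul_zero]
  have a1 : lamd h ρ t 0 ≤ ρ * c ^ 2 / 2 := by
    have e : lamd h ρ t 0 = ρ * ((h * t) * (h * t - h)) / 2 := by unfold lamd; ring
    have : (h * t) * (h * t - h) ≤ c ^ 2 := by nlinarith
    rw [e]; gcongr
  have a2 := pQ_anti 1 (lamd_nonneg h hρ0.le t le_rfl) a1
  have a3 := (lt_div_iff₀ (by positivity)).1 h1.2
  have a4 := mul_le_mul_of_nonneg_right s3 (show 0 ≤ h * (ρ * c) ^ 2 by positivity)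
  nlinarith

end Pool.Agent.Lib.SRG
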