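import Pool.Agent.Lib.MP_8954a7_pr.UniA

/-! The path strategy for unicyclic graphs. -/

namespace Pool.Agent.Lib.SRG

open SimpleGraph Finset

section
variable {α : Type*} {H : SimpleGraph α}

/-- `f 0, ..., f e` is a path. -/
def PathOn (H : SimpleGraph α) (f : ℕ → α) (e : ℕ) : Prop :=
  (∀ i ≤ e, ∀ j ≤ e, f i = f j → i = j) ∧ ∀ i < e, H.Adj (f i) (f (i + 1))

theorem PathOn.ext {f : ℕ → α} {e : ℕ} (P : PathOn H f e) {u : α} (hu : ∀ i ≤ e, f i ≠ u) :
    PathOn (H ⊔ edge u (f e)) (fun i => if i ≤ e then f i else u) (e + 1) := by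
  constructor
  · intro i hi j hj h
    by_cases h1 : i ≤ e <;> by_cases h2 : j ≤ e <;> simp only [h1, h2, if_true, if_false] at h
    · exact P.1 i h1 j h2 h
    · exact (hu i h1 h).elim
    · exact (hu j h2 h.symm).elim
    · omega
  · intro i hi
    by_cases h1 : i = e
    · subst h1
      simp only [le_refl, if_true, Nat.not_succ_le_self, if_false]
      exact Or.inr ((edge_adj ..).2 ⟨Or.inr ⟨rfl, rfl⟩, hu i le_rfl⟩)
    · simp only [show i ≤ e by omega, show i + 1 ≤ e by omega, if_true]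
      exact Or.inl (P.2 i (by omega))

theorem PathOn.pth {f : ℕ → α} {m i : ℕ} (P : PathOn H f (2 * m + 3)) (hi : i ≤ 2 * m + 3) :
    Pth H (m + 3) (f i) := by
  by_cases h : i ≤ m + 1
  · exact ⟨fun j => f (i + j), rfl, fun a ha b hb e => by
      have := P.1 _ (by omega) _ (by omega) e; omega, fun a ha => P.2 (i + a) (by omega)⟩
  · refine ⟨fun j => f (i - j), rfl, fun a ha b hb e => by
      have := P.1 _ (by omega) _ (by omega) e; omega, fun a ha => ?_⟩
    have := (P.2 (i - (a + 1)) (by omega)).symm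
    rwa [show i - (a + 1) + 1 = i - a by omega] at this

theorem E2_rigid [Fintype α] {H' : SimpleGraph α} (h : H ≤ H') (h' : E2 H' univ ≤ E2 H univ)
    {a b : α} (hab : H'.Adj a b) : H.Adj a b := by
  classical
  unfold E2 at h'
  have := eq_of_subset_of_card_le (fun p hp => mem_filter.2
    ⟨(mem_filter.1 hp).1, h (mem_filter.1 hp).2⟩) h'
  exact (mem_filter.1 ((Finset.ext_iff.1 this (a, b)).2
    (mem_filter.2 ⟨mem_product.2 ⟨mem_univ a, mem_univ b⟩, hab⟩))).2

end

variable {V : Type*} [Fintype V] [DecidableEq V] {G : SimpleGraph V} {n : ℕ}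

theorem cyc_ready (hc : G.Preconnected) (hE : E2 G univ ≤ 2 * Fintype.card V) {m : ℕ}
    (hG : cycleGraph (m + 3) ⊑ G) : ∃ x S a, x ∈ S ∧ a + 1 ≤ Fintype.card V ∧ Build G x S a 0 ∧
      ∀ (n : ℕ) (H : SimpleGraph (Fin n)) u, Pth H (m + 3) u → ∃ v φ, Emb G (H ⊔ edge u v) S φ := by
  classical
  obtain ⟨ψ⟩ := hG
  have hψ : Function.Injective ψ := ψ.injective
  have hS : (univ.image ψ).card = m + 3 := by
    rw [card_image_of_injective _ hψ, card_univ, Fintype.card_fin]
  have hne : (univ.image ψ).Nonempty := card_pos.1 (by omega)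
  have h1 : 2 * (univ : Finset (Fin (m + 3))).card ≤ E2 (cycleGraph (m + 3)) univ :=
    E2_deg fun y _ => ⟨y + 1, mem_univ _, y - 1, mem_univ _, fun e => by
      have e2 : (1 : Fin (m + 3)) = -1 := add_left_cancel (e.trans (sub_eq_add_neg y 1))
      have := congrArg Fin.val e2
      simp only [Fin.coe_neg_one, Fin.val_one] at this
      omega, cycleGraph_adj.2 (Or.inr (by abel)), cycleGraph_adj.2 (Or.inl (by abel))⟩
  rw [card_univ, Fintype.card_fin] at h1
  have h2 := E2_copy ψ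
  have h3 := E2_grow hc _ hne
  have h4 : E2 (G.comap ψ) univ ≤ E2 G (univ.image ψ) :=
    E2_copy (G := G.comap ψ) ⟨⟨ψ, fun h => h⟩, ψ.injective⟩
  have rig : ∀ i j, G.Adj (ψ i) (ψ j) → (cycleGraph (m + 3)).Adj i j := fun i j h =>
    E2_rigid (H' := G.comap ψ) (fun _ _ h => ψ.toHom.map_rel h) (by omega) h
  obtain ⟨a, ha, hB⟩ := build_uni hc hE (ψ 0) _ hne (by omega)
  refine ⟨ψ 0, _, a, mem_image_of_mem _ (mem_univ _), by omega, hB, ?_⟩
  rintro n H u ⟨g, g0, g1, g2⟩
  have st : ∀ i : Fin (m + 3), (H ⊔ edge u (g (m + 2))).Adj (g i) (g (i + 1 : Fin (m + 3))) := by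
    intro i
    by_cases hi : i.val + 1 < m + 3
    · rw [Fin.val_add_one_of_lt' hi]; exact Or.inl (g2 i hi)
    · obtain rfl : i = Fin.last (m + 2) := Fin.ext (by have := i.2; simp only [Fin.val_last]; omega)
      rw [Fin.last_add_one, Fin.val_zero, Fin.val_last, g0]
      refine Or.inr ((edge_adj ..).2 ⟨Or.inr ⟨rfl, rfl⟩, fun e => ?_⟩)
      have := g1 _ (by omega) _ (by omega) (e.trans g0.symm)
      omega
  refine ⟨g (m + 2), Function.extend ψ (fun j => g j) fun _ => u, fun v hv w hw e => ?_,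
    fun v hv w hw e => ?_⟩ <;> obtain ⟨i, -, rfl⟩ := mem_image.1 hv <;>
    obtain ⟨j, -, rfl⟩ := mem_image.1 hw <;> simp only [hψ.extend_apply] at e ⊢
  · rw [Fin.ext (g1 i i.2 j j.2 e)]
  · rcases cycleGraph_adj.1 (rig i j e) with h | h
    · rw [eq_add_of_sub_eq' h]; exact (st j).symm
    · rw [eq_add_of_sub_eq' h]; exact st i

omit [Fintype V] [DecidableEq V] in
theorem lower_cyc_ind (hn : 0 < n) {m a : ℕ} {h ρ C N A e : ℝ} (hh : 0 < h)
    (hn2 : n * h ^ 2 = 1) (hρ : ρ * (2 * m + 3) = 2 * m + 4) (hN : 0 ≤ N) (hA : 0 ≤ A)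
    (hC1 : h * C < 1) (he : C ^ 2 + (4 * m + 7) ≤ e * n)
    (hfin : ∀ (s : ℕ) (H : SimpleGraph (Fin n)) u, Pth H (m + 3) u → h * (a + s + N) ≤ C →
      ∃ v, 1 - A - (a + s) * e ≤ val G (a + s) (H ⊔ edge u v)) :
    ∀ (s : ℕ) (H : SimpleGraph (Fin n)) (D : Finset (Fin n)) (f : ℕ → Fin n) (b : ℕ),
      (∀ u ∈ D, Pth H (m + 3) u) → b < 2 * m + 3 → PathOn H f b → (∀ i ≤ b, f i ∉ D) →
      h * (D.card + ρ * b + 2 * s + a + N) ≤ C →
      1 - pQ 1 (lamd h ρ s (D.card + ρ * b)) - A - (a + s) * e ≤ val G (a + s) H := by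
  have hn' : (0 : ℝ) < n := by positivity
  have hm0 : (0 : ℝ) ≤ m := Nat.cast_nonneg _
  have ha0 : (0 : ℝ) ≤ a := Nat.cast_nonneg _
  have ρ0 : 0 ≤ ρ := by
    by_contra! h; nlinarith
  have ρ2 : ρ ≤ 2 := by
    by_contra! h; nlinarith
  have he0 : 0 ≤ e := by
    by_contra! h; nlinarith [sq_nonneg C]
  intro s
  induction s with
  | zero =>
    intro H D f b _ _ _ _ _
    have := val_nonneg G (a + 0) H
    have : 0 ≤ a * e := by positivity
    simp only [lamd, Nat.cast_zero, mul_zero, zero_mul, zero_div, add_zero, pQ_at_zero] at *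
    linarith
  | succ s ih =>
    intro H D f b hD hb hP hf hC
    have hs0 : (0 : ℝ) ≤ s := Nat.cast_nonneg _
    have hb0 : (0 : ℝ) ≤ b := Nat.cast_nonneg _
    have hD0 : (0 : ℝ) ≤ D.card := Nat.cast_nonneg _
    have hb1 : (b : ℝ) + 1 ≤ 2 * m + 3 := by exact_mod_cast hb
    have hρb := mul_nonneg ρ0 hb0
    push_cast at hC ⊢
    have inv : ∀ y, y ≤ D.card + ρ * b + 2 * (s + 1) + a + N → h * y ≤ C := fun y hy =>
      (mul_le_mul_of_nonneg_left hy hh.le).trans hC
    set l := lamd h ρ s (D.card + ρ * b + ρ) with hl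
    have hl0 : 0 ≤ l := lamd_nonneg h ρ0 s (by positivity)
    set Φ := 1 - pQ 1 l - A - (a + s) * e with hΦ
    have q0 := pQ_nonneg 1 hl0
    have hΦ1 : Φ ≤ 1 := by
      have : 0 ≤ (a + s) * e := by positivity
      linarith
    refine le_trans ?_ (le_val_succ G (r := a + s) (fun u => if u ∈ D then Φ + pQ 1 l
      else if u ∈ D ∪ (range (b + 1)).image f then Φ - 1 else Φ) fun u => ?_)
    · rw [sum_three _ _ subset_union_left, le_div_iff₀ hn', lamd_succ, ← hl]
      have a0 : ((D ∪ (range (b + 1)).image f).card : ℝ) ≤ D.card + (b + 1) := by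
        exact_mod_cast (card_union_le _ _).trans
          (Nat.add_le_add_left (card_image_le.trans (card_range _).le) _)
      have a1 := (abs_le.1 (pQ_taylor 0 hl0 (p := h ^ 2 * (D.card + ρ * b)) (by positivity))).1
      rw [pa_zero, zero_add] at a1
      have a2 : (h * (D.card + ρ * b)) ^ 2 ≤ C ^ 2 :=
        pow_le_pow_left₀ (by positivity) (inv _ (by linarith)) 2
      have a5 : h ^ 2 * (D.card + ρ * b) * pQ 1 l * n = (D.card + ρ * b) * pQ 1 l := by
        linear_combination ((D.card + ρ * b) * pQ 1 l) * hn2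
      have a6 : (h ^ 2 * (D.card + ρ * b)) ^ 2 * n = (h * (D.card + ρ * b)) ^ 2 := by
        linear_combination (h * (D.card + ρ * b)) ^ 2 * hn2
      have a7 := mul_le_mul_of_nonneg_right a1 hn'.le
      have a8 := mul_le_mul_of_nonneg_left (pQ_le_one 1 hl0) hρb
      have a9 := mul_le_mul_of_nonneg_left hb1 ρ0
      linarith
    · by_cases hu : u ∈ D
      · obtain ⟨v, hv⟩ := hfin s H u (hD u hu) (inv _ (by linarith))
        exact ⟨v, by rw [if_pos hu]; linarith⟩
      rw [if_neg hu]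
      by_cases hu' : u ∈ D ∪ (range (b + 1)).image f
      · exact ⟨u, by rw [if_pos hu']; linarith [val_nonneg G (a + s) (H ⊔ edge u u)]⟩
      rw [if_neg hu']
      have P' := hP.ext (u := u) fun i hi e => hu' (mem_union_right _
        (mem_image.2 ⟨i, mem_range.2 (by omega), e⟩))
      set g : ℕ → Fin n := fun i => if i ≤ b then f i else u with hg
      have hg' : ∀ i, g i ∉ D := fun i => by
        simp only [hg]; split_ifs with h1
        exacts [hf i h1, hu]
      have hD' : ∀ y ∈ D, Pth (H ⊔ edge u (f b)) (m + 3) y := fun y hy => (hD y hy).mono le_sup_left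
      refine ⟨f b, ?_⟩
      by_cases hq : b + 1 < 2 * m + 3
      · have := ih _ D g (b + 1) hD' hq P' (fun i _ => hg' i) (inv _ (by push_cast; linarith))
        push_cast at this
        rwa [mul_add, mul_one, ← add_assoc] at this
      · have hq' : b + 1 = 2 * m + 3 := by omega
        have hq2 : (b : ℝ) + 1 = 2 * m + 3 := by exact_mod_cast hq'
        rw [hq'] at P'
        have hc : ((D ∪ (range (2 * m + 4)).image g).card : ℝ) = D.card + ρ * b + ρ := by
          rw [card_union_of_disjoint (Finset.disjoint_right.2 fun z hz => by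
            obtain ⟨i, -, rfl⟩ := mem_image.1 hz; exact hg' i), card_image_of_injOn
            fun i hi j hj e => P'.1 i (by have := mem_range.1 hi; omega) j
              (by have := mem_range.1 hj; omega) e, card_range]
          push_cast
          linear_combination -hρ - ρ * hq2
        obtain ⟨y, hy⟩ : ∃ y, y ∉ D ∪ (range (2 * m + 4)).image g := by
          by_contra! h2
          rw [eq_univ_of_forall h2, card_univ, Fintype.card_fin] at hc
          have : h * (h * n) ≤ h * C :=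
            mul_le_mul_of_nonneg_left (inv _ (by rw [hc]; linarith)) hh.le
          linarith
        have := ih (H ⊔ edge u (f b)) _ (fun _ => y) 0 (fun z hz => by
          rcases mem_union.1 hz with h1 | h1
          · exact hD' z h1
          · obtain ⟨i, hi, rfl⟩ := mem_image.1 h1
            exact P'.pth (by have := mem_range.1 hi; omega)) (by omega)
          ⟨fun i hi j hj _ => by omega, fun i hi => by omega⟩ (fun _ _ => hy)
          (inv _ (by rw [hc]; push_cast; linarith))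
        rwa [hc, Nat.cast_zero, mul_zero, add_zero] at this

theorem lower_cyc (hc : G.Preconnected) (hE : E2 G univ ≤ 2 * Fintype.card V) {m : ℕ}
    (hG : cycleGraph (m + 3) ⊑ G) {ρ : ℝ} (hρ : ρ * (2 * m + 3) = 2 * m + 4) {c ε : ℝ}
    (hc0 : 0 < c) (hε : 0 < ε) :
    ∀ᶠ n : ℕ in Filter.atTop, 1 - pQ 1 (ρ * c ^ 2 / 2) - ε ≤ optProb G n ⌊c * √(n : ℝ)⌋₊ := by
  obtain ⟨x, S, a, hx, h1, hB, hS⟩ := cyc_ready hc hE hG
  have hm0 : (0 : ℝ) ≤ m := Nat.cast_nonneg _
  have ρ0 : 0 ≤ ρ := by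
    by_contra! h; nlinarith
  have ρ2 : ρ ≤ 2 := by
    by_contra! h; nlinarith
  set N : ℝ := (Fintype.card V : ℝ) with hN
  have hN0 : 0 ≤ N := Nat.cast_nonneg _
  have ha : (a : ℝ) + 1 ≤ N := by rw [hN]; exact_mod_cast h1
  have ha0 : (0 : ℝ) ≤ a := Nat.cast_nonneg _
  set C := 2 * c + N with hC
  have hC0 : 0 < C := by positivity
  set M := N + 3 * C ^ 2 + (4 * m + 7) with hM
  have hM0 : 0 < M := by positivity
  set K := 2 * (c * (N + 1)) + N * C + c * M with hK
  have hK0 : 0 < K := by positivity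
  filter_upwards [small zero_lt_one, small (div_pos hε hK0),
    small (show 0 < c / (N + 1) by positivity), small (one_div_pos.2 hC0)] with n n1 n2 n3 n4
  obtain ⟨s1, s2, s3, s4⟩ := scale hc0.le n1.1
  set h := 1 / √(n : ℝ)
  set t := ⌊c * √(n : ℝ)⌋₊
  have b3 := (lt_div_iff₀ (by positivity)).1 n3.2
  have hat : a ≤ t := by
    have : (a : ℝ) ≤ t := le_of_mul_le_mul_left (by
      linarith [mul_le_mul_of_nonneg_left ha s1.le]) s1
    exact_mod_cast this
  obtain ⟨s, hs⟩ := Nat.exists_eq_add_of_le hat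
  have hs' : (t : ℝ) = a + s := by exact_mod_cast hs
  have hs0 : (0 : ℝ) ≤ s := Nat.cast_nonneg _
  have u0 := mul_le_mul_of_nonneg_left ha s1.le
  have u4 := mul_nonneg s1.le ha0
  have u5 := mul_le_mul_of_nonneg_right n1.2.le hN0
  rw [hs'] at s3 s4
  have u1 : h * s ≤ c := by linarith
  have := lower_cyc_ind (G := G) n1.1 (a := a) (C := C) (A := a * (h * C)) (e := h ^ 2 * M) s1 s2
    hρ hN0 (by positivity) ((lt_div_iff₀ hC0).1 n4.2)
    (by rw [show h ^ 2 * M * n = M by linear_combination M * s2]; linarith [sq_nonneg C])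
    (fun s H u hu hC => by
      obtain ⟨v, φ, E⟩ := hS n H u hu
      have := lower_ind (G := G) x n1.1 s1 s2 (C := C) (a + s) S a 0 s _ φ ∅ rfl hB hx E
        (disjoint_empty_right _) (by simp) (by simpa using hC)
      rw [pQ_zero] at this
      refine ⟨v, le_trans ?_ this⟩
      have : ((a : ℝ) + s) * (h ^ 2 * (N + 3 * C ^ 2)) ≤ (a + s) * (h ^ 2 * M) := by
        gcongr; linarith
      push_cast
      linarith)
    s ⊥ ∅ (fun _ => ⟨0, n1.1⟩) 0 (by simp) (by omega)
    ⟨fun i hi j hj _ => by omega, fun i hi => by omega⟩ (by simp)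
    (by simp only [card_empty, Nat.cast_zero, mul_zero, zero_add]; linarith)
  rw [optProb_eq, hs]
  refine le_trans ?_ this
  simp only [card_empty, Nat.cast_zero, mul_zero, add_zero]
  have l0 := lamd_nonneg h ρ0 s le_rfl
  have q2 := (abs_le.1 (pQ_lip 1 l0 (y := ρ * c ^ 2 / 2) (by positivity))).2
  have q3 : |lamd h ρ s 0 - ρ * c ^ 2 / 2| ≤ 2 * (h * (c * (N + 1))) := by
    have e : lamd h ρ s 0 - ρ * c ^ 2 / 2 = ρ * ((h * s) * (h * s - h) / 2 - c ^ 2 / 2) := by
      unfold lamd; ring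
    have u2 : c - h * N ≤ h * s := by linarith
    have u3 : 0 ≤ h * s := by positivity
    rw [e, abs_mul, abs_of_nonneg ρ0]
    refine mul_le_mul ρ2 ?_ (abs_nonneg _) zero_le_two
    rw [abs_le]
    have u6 := mul_le_mul_of_nonneg_left u1 u3
    have u7 := mul_le_mul_of_nonneg_left u1 hc0.le
    have u8 := mul_le_mul_of_nonneg_left u1 s1.le
    have u9 := mul_le_mul_of_nonneg_left u2 hc0.le
    have u10 := mul_nonneg s1.le u3
    have u11 := mul_nonneg (mul_pos s1 hc0).le hN0
    have u12 := sq_nonneg (h * s - c)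
    constructor <;> linarith [mul_pos s1 hc0]
  have q4 := mul_le_mul_of_nonneg_right (show a ≤ N by linarith) (mul_pos s1 hC0).le
  have q5 : (a + s) * (h ^ 2 * M) ≤ h * (c * M) := by
    have := mul_le_mul_of_nonneg_right s3 (show 0 ≤ h * M by positivity)
    linarith
  have q6 := (lt_div_iff₀ hK0).1 n2.2
  linarith

end Pool.Agent.Lib.SRG
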