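import Pool.Agent.Lib.MP_8954a7_pr.Dec
import Pool.Agent.Lib.MP_8954a7_pr.Hjb

/-! Upper bound for graphs with excess at least two. -/

namespace Pool.Agent.Lib.SRG

open SimpleGraph Finset

theorem avg_step {n : ℕ} (hn : 0 < n) (A B : Finset (Fin n)) (hAB : A ⊆ B) {W Y ω h ρ C e : ℝ}
    (hh : 0 ≤ h) (hY : 0 ≤ Y) (hω : 0 ≤ ω) (hρ : 0 ≤ ρ)
    (a : (A.card : ℝ) ≤ n * (h * ρ)) (b : (B.card : ℝ) ≤ n * (h * C)) (c : h * C * (ρ * Y) ≤ ω) :
    (∑ u, if u ∈ A then 1 - (W - Y - ω) + e else if u ∈ B then 1 - (W - ω) + e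
      else 1 - (W + h * (ρ * Y - ω)) + e) / n ≤ 1 - W + e + h * ((C + 2) * ω) := by
  classical
  have hn' : (0 : ℝ) < n := by positivity
  rw [sum_three A B hAB, div_le_iff₀ hn']
  have h1 : (A.card : ℝ) * Y ≤ n * (h * ρ) * Y := mul_le_mul_of_nonneg_right a hY
  have h2 : (B.card : ℝ) * ω ≤ n * (h * C) * ω := mul_le_mul_of_nonneg_right b hω
  have h3 : (B.card : ℝ) * (h * (ρ * Y)) ≤ n * (h * C) * (h * (ρ * Y)) :=
    mul_le_mul_of_nonneg_right b (by positivity)
  have h4 : (n : ℝ) * h * (h * C * (ρ * Y)) ≤ n * h * ω :=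
    mul_le_mul_of_nonneg_left c (by positivity)
  have h5 : 0 ≤ (B.card : ℝ) * (h * ω) := by positivity
  nlinarith

/-- The failure potential. -/
noncomputable def pot (k P : ℕ) (T m f : ℝ) : ℝ :=
  if P = 0 then Psi k T m f else pQ (k + 2 - P) (lam T m)

theorem lam_close {T m h x C : ℝ} (hh : 0 ≤ h) (hT : h ≤ T) (hTC : T ≤ C) (hm : 0 ≤ m)
    (hmC : m ≤ C) (hx : |x| ≤ 6 * h) : |lam (T - h) (m + x) - lam T m| ≤ 9 * C * h := by
  obtain ⟨h1, h2⟩ := abs_le.1 hx
  unfold lam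
  rw [abs_le]
  constructor <;> nlinarith [mul_nonneg hh hm, mul_nonneg hh (sub_nonneg.2 hT),
    mul_nonneg hh (sub_nonneg.2 hTC), mul_nonneg hh (sub_nonneg.2 hmC),
    mul_nonneg (sub_nonneg.2 h2) (sub_nonneg.2 hT), mul_nonneg (sub_nonneg.2 h1) (sub_nonneg.2 hT)]

theorem pQ_fresh (j : ℕ) {T m h x : ℝ} (hh : 0 ≤ h) (hT : h ≤ T) (hm : 0 ≤ m) (hm' : 0 ≤ m + x)
    (hx : x ≤ h) :
    pQ (j + 1) (lam T m) + h * (m * pa j (lam T m)) - 2 * (h * m) ^ 2
      ≤ pQ (j + 1) (lam (T - h) (m + x)) := by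
  have h0 : 0 ≤ lam T m - h * m := by
    unfold lam; nlinarith [mul_nonneg hm (sub_nonneg.2 hT), sq_nonneg T]
  have hp : 0 ≤ h * m := by positivity
  have h1 : lam (T - h) (m + x) ≤ lam T m - h * m := by
    unfold lam; nlinarith [mul_nonneg (sub_nonneg.2 hx) (sub_nonneg.2 hT), sq_nonneg h]
  have h2 := pQ_anti (j + 1) (lam_nonneg (by linarith) hm') h1
  have h3 := (abs_le.1 (pQ_taylor j h0 hp)).2
  have h4 := (abs_le.1 (pa_lip j h0 (lam_nonneg (hh.trans hT) hm))).1
  rw [sub_add_cancel] at h3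
  rw [show lam T m - h * m - lam T m = -(h * m) by ring, abs_neg, abs_of_nonneg hp] at h4
  nlinarith

theorem upper_ind {V : Type*} [Fintype V] (G : SimpleGraph V) (k : ℕ)
    (hG : Fintype.card V + (k + 1) ≤ G.edgeSet.ncard) {n : ℕ} (hn : 0 < n) {h δ ω C η : ℝ}
    (hh : 0 < h) (hn2 : n * h ^ 2 = 1) (hδ : 0 < δ) (hω : 0 < ω) (hC : 1 ≤ C)
    (hU : ∀ T m f T' m' f' : ℝ, T ∈ Set.Icc 0 C → m ∈ Set.Icc δ C → f ∈ Set.Icc 0 C →
      T' ∈ Set.Icc 0 C → m' ∈ Set.Icc δ C → f' ∈ Set.Icc 0 C →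
      |T - T'| < η → |m - m'| < η → |f - f'| < η →
      |Psi k T m f - Psi k T' m' f'| < ω ∧ |RR k T m f - RR k T' m' f'| < ω ∧
        |Yy k T m f - Yy k T' m' f'| < ω)
    (hη : 7 * h < η) (hhω : 9 * C ^ 2 * h ≤ ω) (t : ℕ) (ht : δ + h * t ≤ C) :
    ∀ (r τ : ℕ) (H : SimpleGraph (Fin n)) (D : Dec H τ), τ + r = t →
      val G r H ≤ 1 - pot k D.P (h * r) (δ + h * D.mass) (h * (τ - D.mass))
        + r * (h * ((2 * C + 2) * ω)) := by
  classical
  intro r
  induction r with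
  | zero =>
    intro τ H D _
    have hm : 0 ≤ δ + h * D.mass := by positivity
    have hf : 0 ≤ h * ((τ : ℝ) - D.mass) :=
      mul_nonneg hh.le (sub_nonneg.2 (by exact_mod_cast D.mass_le))
    simp only [val, Nat.cast_zero, mul_zero, zero_mul, add_zero, pot]
    split_ifs with h1 h2 h2
    · exfalso
      obtain ⟨f⟩ := h1
      have a1 := E2_copy f
      have a2 := D.global (univ.image f)
      have a3 : (univ.image f).card ≤ Fintype.card V := card_image_le
      rw [E2_univ] at a1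
      omega
    · obtain ⟨f⟩ := h1
      have a1 := E2_copy f
      have a2 := D.global (univ.image f)
      have a3 : (univ.image f).card ≤ Fintype.card V := card_image_le
      rw [E2_univ] at a1
      rw [show k + 2 - D.P = 0 by omega, pQ_zero]
      simp
    · linarith [Psi_le_one k le_rfl hm hf]
    · linarith [pQ_le_one (k + 2 - D.P) (lam_nonneg le_rfl hm)]
  | succ r ih =>
    intro τ H D hτ
    have hn' : (0 : ℝ) < n := by positivity
    have hτ' : (τ : ℝ) + (r + 1) = t := by exact_mod_cast hτ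
    have hr : (0 : ℝ) ≤ r := Nat.cast_nonneg _
    have hτ0 : (0 : ℝ) ≤ τ := Nat.cast_nonneg _
    have hml : (D.mass : ℝ) ≤ τ := by exact_mod_cast D.mass_le
    have hm0 : (0 : ℝ) ≤ D.mass := Nat.cast_nonneg _
    set T : ℝ := h * ((r + 1 : ℕ) : ℝ) with hT
    set m : ℝ := δ + h * D.mass with hm
    set f : ℝ := h * (τ - D.mass) with hf
    set e : ℝ := r * (h * ((2 * C + 2) * ω)) with he
    have hT' : T = h * r + h := by rw [hT]; push_cast; ring
    have hτC : h * τ + T ≤ C - δ := by rw [← hτ'] at ht; rw [hT']; linarith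
    have hTh : h ≤ T := by rw [hT']; nlinarith
    have bT : T ∈ Set.Icc 0 C := ⟨by linarith, by nlinarith⟩
    have bm : m ∈ Set.Icc δ C := ⟨by rw [hm]; nlinarith, by rw [hm]; nlinarith⟩
    have bf : f ∈ Set.Icc 0 C := ⟨by rw [hf]; nlinarith, by rw [hf]; nlinarith⟩
    have hm1 : 0 < m := hδ.trans_le bm.1
    have hL := lam_nonneg bT.1 hm1.le
    have hB : (D.touched.card : ℝ) ≤ n * (h * (2 * C)) := by
      have h1 : (D.touched.card : ℝ) ≤ 2 * τ := by exact_mod_cast D.touched_card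
      have h2 : (τ : ℝ) = n * h * (h * τ) := by linear_combination (-τ) * hn2
      have h3 : n * h * (h * τ) ≤ n * h * C :=
        mul_le_mul_of_nonneg_left (by linarith [bT.1]) (by positivity)
      linarith
    have key : ∀ u v : Fin n, ∃ (P' : ℕ) (x : ℝ), |x| ≤ 6 * h ∧ (u ∉ D.touched → x ≤ h) ∧
        m + x ∈ Set.Icc δ C ∧ f + (h - x) ∈ Set.Icc 0 C ∧ P' ≤ D.P + 1 ∧ D.P ≤ P' ∧
        (1 ≤ D.P → u ∉ D.K → P' = D.P) ∧ (D.P = 0 → u ∉ D.cap → P' = 0) ∧
        val G r (H ⊔ edge u v) ≤ 1 - pot k P' (T - h) (m + x) (f + (h - x)) + e := by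
      intro u v
      obtain ⟨D', R⟩ := D.step u v
      have a1 : (D'.mass : ℝ) ≤ D.mass + 6 := by exact_mod_cast R.m_le
      have a2 : (D.mass : ℝ) ≤ D'.mass + 6 := by exact_mod_cast R.m_ge
      have a3 : (D'.mass : ℝ) ≤ τ + 1 := by exact_mod_cast D'.mass_le
      have a4 : (0 : ℝ) ≤ D'.mass := Nat.cast_nonneg _
      refine ⟨D'.P, h * (D'.mass - D.mass), ?_, fun hu => ?_, ⟨?_, ?_⟩, ⟨?_, ?_⟩, R.P_le, R.P_ge,
        R.P_eq, R.P_zero, ?_⟩
      · rw [abs_le]; constructor <;> nlinarith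
      · have : (D'.mass : ℝ) ≤ D.mass + 1 := by exact_mod_cast R.m_fresh hu
        nlinarith
      · rw [hm]; nlinarith
      · rw [hm]; nlinarith
      · rw [hf]; nlinarith
      · rw [hf]; nlinarith
      · have := ih (τ + 1) _ D' (by omega)
        convert this using 4
        · rw [hT']; ring
        · rw [hm]; ring
        · rw [hf]; push_cast; ring
    have hfin : ∀ W : ℝ, 1 - W + e + h * ((2 * C + 2) * ω)
        = 1 - W + ((r + 1 : ℕ) : ℝ) * (h * ((2 * C + 2) * ω)) := fun W => by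
      rw [he]; push_cast; ring
    have hlam : ∀ (j : ℕ) (x : ℝ), |x| ≤ 6 * h → m + x ∈ Set.Icc δ C →
        pQ j (lam T m) - ω ≤ pQ j (lam (T - h) (m + x)) := fun j x hx hb => by
      have h1 := lam_close hh.le hTh bT.2 hm1.le bm.2 hx
      have h2 := (abs_le.1 ((pQ_lip j (lam_nonneg (by linarith) (hδ.le.trans hb.1)) hL).trans h1)).1
      nlinarith
    rcases Nat.eq_zero_or_pos D.P with h0 | h0
    · have hY := Yy_nonneg k f bT.1 hm1.le
      have hY1 := (Yy_le k bT.1 hm1.le bf.1).trans (pa_le_one _ hL)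
      have hPsi : ∀ x : ℝ, |x| ≤ 6 * h → m + x ∈ Set.Icc δ C → f + (h - x) ∈ Set.Icc 0 C →
          Psi k T m f - ω ≤ Psi k (T - h) (m + x) (f + (h - x)) := fun x hx h1 h2 => by
        obtain ⟨x1, x2⟩ := abs_le.1 hx
        have := (hU T m f (T - h) (m + x) (f + (h - x)) bT bm bf ⟨by linarith, by linarith [bT.2]⟩
          h1 h2 (by rw [abs_lt]; constructor <;> linarith) (by rw [abs_lt]; constructor <;> linarith)
          (by rw [abs_lt]; constructor <;> linarith)).1
        linarith [(abs_lt.1 this).2]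
      refine (val_succ_le G _ fun u v => ?_).trans ((avg_step hn D.cap D.touched D.cap_sub
        (W := Psi k T m f) (Y := Yy k T m f) (ω := ω) (h := h) (ρ := m + 3 / 2 * f) (C := 2 * C)
        (e := e) hh.le hY hω.le (by linarith [bf.1]) ?_ hB ?_).trans_eq ?_)
      · obtain ⟨P', x, x1, x2, x3, x4, p1, -, -, p2, hv⟩ := key u v
        refine hv.trans ?_
        have q1 := hPsi x x1 x3 x4
        split_ifs with c1 c2
        · unfold pot
          split_ifs with c3
          · linarith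
          · have := hlam (k + 1) x x1 x3
            rw [show k + 2 - P' = k + 1 by omega]
            unfold Psi
            linarith
        · rw [p2 h0 c1, pot, if_pos rfl]; linarith
        · rw [p2 h0 c1, pot, if_pos rfl]
          obtain ⟨s, s0, s1, hs⟩ := seg k (T := T) (m := m) (f := f) (h := h) (x := x)
            (by linarith) hm1 (hδ.trans_le x3.1) bf.1 hh.le (x2 c2)
          obtain ⟨y1, y2⟩ := abs_le.1 x1
          have hx := x2 c2
          have := (hU T m f (T - s * h) (m + s * x) (f + s * (h - x)) bT bm bf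
            ⟨by nlinarith, by nlinarith [bT.2]⟩
            ⟨by nlinarith [bm.1, x3.1], by nlinarith [bm.2, x3.2]⟩
            ⟨by nlinarith [bf.1], by nlinarith [bf.2, x4.2]⟩
            (by rw [abs_lt]; constructor <;> nlinarith)
            (by rw [abs_lt]; constructor <;> nlinarith)
            (by rw [abs_lt]; constructor <;> nlinarith)).2.1
          have h2 := (abs_lt.1 this).2
          have h3 : RR k T m f = (m + 3 / 2 * f) * Yy k T m f := rfl
          nlinarith
      · have h1 : 2 * (D.cap.card : ℝ) + D.mass ≤ 3 * τ := by exact_mod_cast D.cap_card h0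
        have h2 : (n : ℝ) * (h * (m + 3 / 2 * f))
            = n * h * δ + (D.mass + 3 / 2 * (τ - D.mass)) := by
          rw [hm, hf]; linear_combination (D.mass + 3 / 2 * (τ - D.mass)) * hn2
        have h3 : 0 ≤ (n : ℝ) * h * δ := by positivity
        linarith
      · have h1 : (m + 3 / 2 * f) * Yy k T m f ≤ 3 * C := by nlinarith [bm.2, bf.2, bf.1]
        have h2 : h * (2 * C) * ((m + 3 / 2 * f) * Yy k T m f) ≤ h * (2 * C) * (3 * C) :=
          mul_le_mul_of_nonneg_left h1 (by positivity)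
        nlinarith [mul_pos hh (mul_pos (zero_lt_one.trans_le hC) (zero_lt_one.trans_le hC))]
      · rw [hfin, pot, if_pos h0]
    · rw [pot, if_neg h0.ne']
      rcases Nat.eq_zero_or_pos (k + 2 - D.P) with h1 | h1
      · rw [h1, pQ_zero]
        have := val_le_one G (r + 1) H
        have : 0 ≤ ((r + 1 : ℕ) : ℝ) * (h * ((2 * C + 2) * ω)) := by positivity
        linarith
      obtain ⟨j, hj⟩ : ∃ j, k + 2 - D.P = j + 1 := ⟨k + 1 - D.P, by omega⟩
      have hY := pa_nonneg j hL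
      have hY1 := pa_le_one j hL
      rw [hj]
      refine (val_succ_le G _ fun u v => ?_).trans ((avg_step hn D.K D.touched D.K_sub
        (W := pQ (j + 1) (lam T m)) (Y := pa j (lam T m)) (ω := ω) (h := h) (ρ := m) (C := 2 * C)
        (e := e) hh.le hY hω.le hm1.le ?_ hB ?_).trans_eq (hfin _))
      · obtain ⟨P', x, x1, x2, x3, x4, p1, p0, p2, -, hv⟩ := key u v
        refine hv.trans ?_
        rw [pot, if_neg (by omega)]
        split_ifs with c1 c2
        · have q1 := hlam j x x1 x3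
          have q2 := pQ_mono (show j ≤ k + 2 - P' by omega)
            (lam_nonneg (T := T - h) (by linarith) (hδ.le.trans x3.1))
          rw [pQ_succ]
          linarith
        · rw [p2 h0 c1, hj]; linarith [hlam (j + 1) x x1 x3]
        · rw [p2 h0 c1, hj]
          have q1 := pQ_fresh j hh.le hTh hm1.le (hδ.le.trans x3.1) (x2 c2)
          have q2 : m ^ 2 ≤ C ^ 2 := pow_le_pow_left₀ hm1.le bm.2 2
          have q3 : h * (h * m ^ 2) ≤ h * (h * C ^ 2) := by gcongr
          nlinarith [mul_pos hh (mul_pos hh (pow_pos (zero_lt_one.trans_le hC) 2))]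
      · have h1 : (D.K.card : ℝ) ≤ D.mass := by
          exact_mod_cast (Nat.le_add_right _ _ : D.K.card ≤ D.mass)
        have h2 : (n : ℝ) * (h * m) = n * h * δ + D.mass := by
          rw [hm]; linear_combination D.mass * hn2
        have h3 : 0 ≤ (n : ℝ) * h * δ := by positivity
        linarith
      · have h1 : m * pa j (lam T m) ≤ C := by nlinarith [bm.2]
        have h2 : h * (2 * C) * (m * pa j (lam T m)) ≤ h * (2 * C) * C :=
          mul_le_mul_of_nonneg_left h1 (by positivity)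
        nlinarith [mul_pos hh (mul_pos (zero_lt_one.trans_le hC) (zero_lt_one.trans_le hC))]

theorem scale {c : ℝ} (hc : 0 ≤ c) {n : ℕ} (hn : 0 < n) :
    0 < 1 / √(n : ℝ) ∧ n * (1 / √(n : ℝ)) ^ 2 = 1 ∧ 1 / √(n : ℝ) * ⌊c * √(n : ℝ)⌋₊ ≤ c ∧
      c - 1 / √(n : ℝ) ≤ 1 / √(n : ℝ) * ⌊c * √(n : ℝ)⌋₊ := by
  have hn' : (0 : ℝ) < n := by positivity
  have hs : 0 < √(n : ℝ) := Real.sqrt_pos.2 hn'
  refine ⟨by positivity, ?_, ?_, ?_⟩
  · rw [div_pow, Real.sq_sqrt hn'.le]; field_simp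
  · rw [one_div_mul_eq_div, div_le_iff₀ hs]; exact Nat.floor_le (by positivity)
  · rw [one_div_mul_eq_div, le_div_iff₀ hs, sub_mul, one_div_mul_cancel hs.ne']
    exact (Nat.sub_one_lt_floor _).le

theorem small {η : ℝ} (hη : 0 < η) : ∀ᶠ n : ℕ in Filter.atTop, 0 < n ∧ 1 / √(n : ℝ) < η := by
  have h1 : Filter.Tendsto (fun n : ℕ => 1 / √(n : ℝ)) Filter.atTop (nhds 0) :=
    tendsto_const_nhds.div_atTop (Real.tendsto_sqrt_atTop.comp tendsto_natCast_atTop_atTop)
  exact (Filter.eventually_gt_atTop 0).and (h1.eventually (gt_mem_nhds hη))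

theorem upper_excess {V : Type*} [Fintype V] (G : SimpleGraph V) (k : ℕ)
    (hG : Fintype.card V + (k + 1) ≤ G.edgeSet.ncard) {c ε : ℝ} (hc : 0 < c) (hε : 0 < ε) :
    ∀ᶠ n : ℕ in Filter.atTop,
      optProb G n ⌊c * √(n : ℝ)⌋₊ ≤ 1 - pQ (k + 2) (c ^ 2 / 2) + ε := by
  set δ := ε / (2 * c) with hδ
  have hδ0 : 0 < δ := by positivity
  set C := δ + c + 1 with hC
  have hC0 : 0 < C := by positivity
  set ω := ε / (2 * c * (2 * C + 2)) with hω
  have hω0 : 0 < ω := by positivity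
  obtain ⟨η, hη, hU⟩ := unif k C hδ0 hω0
  filter_upwards [small (show 0 < η / 7 by positivity),
    small (show 0 < ω / (9 * C ^ 2) by positivity)] with n h1 h2
  obtain ⟨s1, s2, s3, -⟩ := scale hc.le h1.1
  set h := 1 / √(n : ℝ)
  set t := ⌊c * √(n : ℝ)⌋₊
  have ht : (0 : ℝ) ≤ h * t := by positivity
  have := upper_ind G k hG h1.1 s1 s2 hδ0 hω0 (by linarith) hU (by linarith [h1.2])
    (by have := (lt_div_iff₀ (by positivity)).1 h2.2; linarith) t (by linarith) t 0 ⊥ (Dec.init n)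
    (zero_add _)
  rw [optProb_eq]
  refine this.trans ?_
  rw [pot, if_pos (by rfl), Dec.init_mass]
  simp only [Nat.cast_zero, mul_zero, add_zero, sub_zero, Psi_f_zero]
  have a1 : lam (h * t) δ ≤ c ^ 2 / 2 + δ * c := by unfold lam; nlinarith
  have a2 := pQ_anti (k + 2) (lam_nonneg ht hδ0.le) a1
  have a3 := (abs_le.1 (pQ_lip (k + 2) (x := c ^ 2 / 2 + δ * c) (y := c ^ 2 / 2) (by positivity)
    (by positivity))).1
  rw [add_sub_cancel_left, abs_of_nonneg (by positivity)] at a3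
  have a4 : δ * c = ε / 2 := by rw [hδ]; field_simp
  have a5 : c * ((2 * C + 2) * ω) = ε / 2 := by rw [hω]; field_simp
  have a6 : h * t * ((2 * C + 2) * ω) ≤ c * ((2 * C + 2) * ω) :=
    mul_le_mul_of_nonneg_right s3 (by positivity)
  linarith

end Pool.Agent.Lib.SRG
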